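import Mathlib
import Pool.Agent.Work.MP_8c604c_gt.O.Defs

-- merged part: Pool.Agent.Work.MP_8c604c_gt.OM.St
section
/-!
Statement layer of the hand-in for MP_8c604c_gt (Blaschke conjecture for the Cayley plane).
The Cayley plane is the set of idempotents of trace one among the Hermitian 3 by 3 matrices over the octonions.
-/

set_option maxSynthPendingDepth 3

open scoped ContDiff Quaternion

noncomputable section
namespace Pool.Agent.Work.MP_8c604c_gt.OM

/-- The octonions: pairs of quaternions, with their Euclidean structure. -/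
def O : Type := WithLp 2 (ℍ × ℍ)

instance : NormedAddCommGroup O := inferInstanceAs (NormedAddCommGroup (WithLp 2 (ℍ × ℍ)))

instance : InnerProductSpace ℝ O := inferInstanceAs (InnerProductSpace ℝ (WithLp 2 (ℍ × ℍ)))

/-- The Cayley-Dickson product `(a, b) (c, d) = (a c - d* b, d a + b c*)`. -/
def omul (x y : O) : O :=
  WithLp.toLp 2 (x.fst * y.fst - star y.snd * x.snd, y.snd * x.fst + x.snd * star y.fst)

/-- Conjugation `(a, b)* = (a*, -b)`. -/
def ostar (x : O) : O := WithLp.toLp 2 (star x.fst, -x.snd)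

/-- The unit `(1, 0)`. -/
def oone : O := WithLp.toLp 2 (1, 0)

/-- 3 by 3 matrices of octonions, with their Euclidean structure. -/
abbrev Mat : Type := PiLp 2 fun _ : Fin 3 × Fin 3 => O

/-- The Hermitian matrices. -/
def herm : Submodule ℝ Mat where
  carrier := {X | ∀ i j, X (j, i) = ostar (X (i, j))}
  add_mem' {X Y} hX hY i j := by
    rw [PiLp.add_apply, PiLp.add_apply, hX i j, hY i j]
    exact (WithLp.ext_iff _).2 (Prod.ext (star_add _ _).symm (neg_add _ _).symm)
  zero_mem' _ _ := (WithLp.ext_iff _).2 (Prod.ext (star_zero _).symm neg_zero.symm)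
  smul_mem' c X hX i j := by
    rw [PiLp.smul_apply, PiLp.smul_apply, hX i j]
    exact (WithLp.ext_iff _).2 (Prod.ext (Quaternion.star_smul c _).symm (smul_neg c _))

/-- The Euclidean space of Hermitian matrices; its inner product is the trace form. -/
def J : Type := herm

instance : NormedAddCommGroup J := inferInstanceAs (NormedAddCommGroup herm)

instance : InnerProductSpace ℝ J := inferInstanceAs (InnerProductSpace ℝ herm)

/-- The Cayley plane: `X X = X` and `tr X = 1`. -/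
def CaP : Set J :=
  {X | (∀ i j, ∑ k, omul (X.1 (i, k)) (X.1 (k, j)) = X.1 (i, j)) ∧ ∑ i, X.1 (i, i) = oone}

/-- `u` is tangent to the Cayley plane at `p`: the velocity of a smooth curve in it. -/
def Tan (p u : J) : Prop :=
  ∃ c : ℝ → J, ContDiff ℝ ∞ c ∧ (∀ t, c t ∈ CaP) ∧ c 0 = p ∧ deriv c 0 = u

/-- Families of real bilinear forms on `J`. -/
abbrev Met : Type := J → J →L[ℝ] J →L[ℝ] ℝ

/-- `g` restricts to a smooth Riemannian metric on the Cayley plane. -/
structure IsMetric (g : Met) : Prop where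
  smooth : ∀ p ∈ CaP, ContDiffAt ℝ ∞ g p
  symm : ∀ p ∈ CaP, ∀ u w, g p u w = g p w u
  pos : ∀ p ∈ CaP, ∀ u, Tan p u → u ≠ 0 → 0 < g p u u

/-- `c` is a unit speed geodesic: Euler-Lagrange equation of the energy, tested on tangent vectors. -/
structure IsUnitGeodesic (g : Met) (c : ℝ → J) : Prop where
  smooth : ContDiff ℝ ∞ c
  mem : ∀ t, c t ∈ CaP
  el : ∀ t η, Tan (c t) η → HasDerivAt (fun s => g (c s) (deriv c s) η)
    (1 / 2 * fderiv ℝ g (c t) η (deriv c t) (deriv c t)) t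
  unit : ∀ t, g (c t) (deriv c t) (deriv c t) = 1

/-- Length of `c` restricted to `[0, 1]`. -/
def len (g : Met) (c : ℝ → J) : ℝ :=
  ∫ t in (0 : ℝ)..1, √(g (c t) (deriv c t) (deriv c t))

/-- `c` is a `C^1` path in the Cayley plane from `y` to `y'`. -/
structure Joins (c : ℝ → J) (y y' : J) : Prop where
  smooth : ContDiff ℝ 1 c
  mem : ∀ s, c s ∈ CaP
  start : c 0 = y
  stop : c 1 = y'

/-- `Ψ` is smooth along the Cayley plane and `Ψ^* g = c * g_0`, `g_0` the metric induced by the trace form. -/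
def PullsBack (g : Met) (Ψ : J → J) (c : ℝ) : Prop :=
  ∀ p ∈ CaP, ContDiffAt ℝ ∞ Ψ p ∧ ∀ u w, Tan p u → Tan p w →
    g (Ψ p) (fderiv ℝ Ψ p u) (fderiv ℝ Ψ p w) = c * inner ℝ u w

/-- The statement of the hand-in. -/
def Goal : Prop :=
  ∀ (g : Met), IsMetric g → ∀ L : ℝ, 0 < L → (∀ c, IsUnitGeodesic g c → ∀ t, c (t + L) = c t) →
    (∀ c, IsUnitGeodesic g c → ∀ t ∈ Set.Icc 0 (L / 2), ∀ γ, Joins γ (c 0) (c t) → t ≤ len g γ) →
    ∃ (Ψ : J → J) (c : ℝ), Set.BijOn Ψ CaP CaP ∧ 0 < c ∧ PullsBack g Ψ c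

end Pool.Agent.Work.MP_8c604c_gt.OM
end
end

-- merged part: Pool.Agent.Work.MP_8c604c_gt.OM.Oct
section
/-!
Composition algebras on a Euclidean space, their laws (after Conway and Smith), and the octonions.
-/

set_option maxSynthPendingDepth 3

open scoped Quaternion RealInnerProductSpace

noncomputable section
namespace Pool.Agent.Work.MP_8c604c_gt.OM

/-- A composition algebra with unit on a Euclidean space. -/
class CA (V : Type) [NormedAddCommGroup V] [InnerProductSpace ℝ V] extends Mul V, One V, Star V where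
  mul_add' : ∀ x y z : V, x * (y + z) = x * y + x * z
  add_mul' : ∀ x y z : V, (x + y) * z = x * z + y * z
  smul_mul' : ∀ (c : ℝ) (x y : V), (c • x) * y = c • (x * y)
  mul_smul' : ∀ (c : ℝ) (x y : V), x * (c • y) = c • (x * y)
  one_mul' : ∀ x : V, 1 * x = x
  mul_one' : ∀ x : V, x * 1 = x
  one_one : ⟪(1 : V), 1⟫ = 1
  nm : ∀ x y : V, ⟪x * y, x * y⟫ = ⟪x, x⟫ * ⟪y, y⟫
  star_def : ∀ x : V, star x = (2 * ⟪x, 1⟫) • (1 : V) - x

section
variable {V : Type} [NormedAddCommGroup V] [InnerProductSpace ℝ V] [CA V]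

instance (priority := 100) CA.ring : NonUnitalNonAssocRing V :=
  { (inferInstance : AddCommGroup V), (inferInstance : Mul V) with
    left_distrib := CA.mul_add'
    right_distrib := CA.add_mul'
    zero_mul := fun x => by
      have := CA.smul_mul' (0 : ℝ) x x
      rwa [zero_smul, zero_smul] at this
    mul_zero := fun x => by
      have := CA.mul_smul' (0 : ℝ) x x
      rwa [zero_smul, zero_smul] at this }

instance (priority := 100) CA.mulOne : MulOneClass V :=
  { (inferInstance : Mul V), (inferInstance : One V) with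
    one_mul := CA.one_mul'
    mul_one := CA.mul_one' }

instance (priority := 100) CA.tower : IsScalarTower ℝ V V := ⟨CA.smul_mul'⟩

instance (priority := 100) CA.comm : SMulCommClass ℝ V V :=
  ⟨fun c x y => (CA.mul_smul' c x y).symm⟩

namespace CA

omit [CA V] in
theorem ext_inner {x y : V} (h : ∀ t, ⟪x, t⟫ = ⟪y, t⟫) : x = y := ext_inner_right ℝ h

theorem scale_l (x y z : V) : ⟪x * y, x * z⟫ = ⟪x, x⟫ * ⟪y, z⟫ := by
  have h := nm x (y + z)
  simp only [mul_add, inner_add_left, inner_add_right, nm, real_inner_comm (x * y) (x * z),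
    real_inner_comm y z] at h
  linear_combination (1 / 2 : ℝ) * h

theorem scale_r (x y z : V) : ⟪x * z, y * z⟫ = ⟪x, y⟫ * ⟪z, z⟫ := by
  have h := nm (x + y) z
  simp only [add_mul, inner_add_left, inner_add_right, nm, real_inner_comm (x * z) (y * z),
    real_inner_comm x y] at h
  linear_combination (1 / 2 : ℝ) * h

theorem exch (x y u z : V) : ⟪x * y, u * z⟫ + ⟪x * z, u * y⟫ = 2 * ⟪x, u⟫ * ⟪y, z⟫ := by
  have h := scale_l (x + u) y z
  simp only [add_mul, inner_add_left, inner_add_right, scale_l, real_inner_comm x u] at h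
  rw [real_inner_comm (u * y)]
  linear_combination h

theorem braid_l (x y z : V) : ⟪x * y, z⟫ = ⟪y, star x * z⟫ := by
  have h := exch x y 1 z
  rw [one_mul, one_mul] at h
  rw [star_def, sub_mul, smul_mul_assoc, one_mul, inner_sub_right, real_inner_smul_right,
    real_inner_comm (x * z)]
  linear_combination h

theorem braid_r (x y z : V) : ⟪x * y, z⟫ = ⟪x, z * star y⟫ := by
  have h := exch x y z 1
  rw [mul_one, mul_one] at h
  rw [star_def, mul_sub, mul_smul_comm, mul_one, inner_sub_right, real_inner_smul_right]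
  linear_combination h

theorem star_star' (x : V) : star (star x) = x := by
  rw [star_def (star x), star_def x, inner_sub_left, real_inner_smul_left, one_one]
  module

theorem inner_star (x y : V) : ⟪star x, star y⟫ = ⟪x, y⟫ := by
  simp only [star_def, inner_sub_left, inner_sub_right, real_inner_smul_left, real_inner_smul_right,
    one_one, real_inner_comm y 1]
  ring

theorem inner_star_left (x y : V) : ⟪star x, y⟫ = ⟪x, star y⟫ := by
  rw [← inner_star, star_star']

theorem star_mul' (x y : V) : star (x * y) = star y * star x := ext_inner fun t => by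
  have e1 : ⟪star y * star x, t⟫ = ⟪star x, y * t⟫ := by rw [braid_l, star_star']
  have e2 : ⟪star x * star t, y⟫ = ⟪star x, y * t⟫ := by rw [braid_r, star_star']
  have e3 : ⟪star x * star t, y⟫ = ⟪star t, x * y⟫ := by rw [braid_l, star_star']
  rw [e1, ← e2, e3, inner_star_left, real_inner_comm]

end CA

instance (priority := 100) CA.invol : InvolutiveStar V :=
  { (inferInstance : Star V) with star_involutive := CA.star_star' }

instance (priority := 100) CA.starRing : StarRing V where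
  star_mul := CA.star_mul'
  star_add x y := by
    simp only [CA.star_def, inner_add_left]
    module

instance (priority := 100) CA.starModule : StarModule ℝ V where
  star_smul c x := by
    simp only [CA.star_def, real_inner_smul_left, star_trivial]
    module

namespace CA

theorem star_one' : star (1 : V) = 1 := by
  rw [star_def, one_one]
  module

theorem inv_l (x y : V) : star x * (x * y) = ⟪x, x⟫ • y := ext_inner fun t => by
  rw [braid_l, star_star, scale_l, real_inner_smul_left]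

theorem inv_l' (x y : V) : x * (star x * y) = ⟪x, x⟫ • y := by
  have := inv_l (star x) y
  rwa [star_star, inner_star] at this

theorem inv_r (x y : V) : (y * x) * star x = ⟪x, x⟫ • y := ext_inner fun t => by
  rw [braid_r, star_star, scale_r, real_inner_smul_left, mul_comm]

theorem inv_r' (x y : V) : (y * star x) * x = ⟪x, x⟫ • y := by
  have := inv_r (star x) y
  rwa [star_star, inner_star] at this

theorem star_mul_self' (x : V) : star x * x = ⟪x, x⟫ • (1 : V) := by
  have := inv_l x 1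
  rwa [mul_one] at this

theorem mul_star_self' (x : V) : x * star x = ⟪x, x⟫ • (1 : V) := by
  have := inv_r x 1
  rwa [one_mul] at this

theorem lin_l (x y z : V) : star x * (y * z) + star y * (x * z) = (2 * ⟪x, y⟫) • z := by
  have h := inv_l (x + y) z
  simp only [star_add, add_mul, mul_add, inv_l, inner_add_left, inner_add_right,
    real_inner_comm x y] at h
  linear_combination (norm := module) h

theorem lin_r (x y z : V) : (z * y) * star x + (z * x) * star y = (2 * ⟪x, y⟫) • z := by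
  have h := inv_r (x + y) z
  simp only [star_add, add_mul, mul_add, inv_r, inner_add_left, inner_add_right,
    real_inner_comm x y] at h
  linear_combination (norm := module) h

/-- the middle Moufang law in explicit form -/
theorem mouf (x y z : V) :
    (x * y) * (z * x) = (2 * ⟪x, star (y * z)⟫) • x - ⟪x, x⟫ • star (y * z) := ext_inner fun t => by
  have e1 := exch x y t (star x * star z)
  have e2 : ⟪y, star x * star z⟫ = ⟪x, star (y * z)⟫ := by
    rw [← braid_l, braid_r, star_mul]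
  have e3 : ⟪star z, t * y⟫ = ⟪star (y * z), t⟫ := by
    rw [star_mul, braid_r (star z), star_star]
  rw [inv_l', real_inner_smul_left, e2, e3] at e1
  rw [braid_r, star_mul, inner_sub_left, real_inner_smul_left, real_inner_smul_left]
  linear_combination e1

theorem flex_l (x y : V) : (x * y) * x = (2 * ⟪x, star y⟫) • x - ⟪x, x⟫ • star y := by
  have := mouf x y 1
  rwa [one_mul, mul_one] at this

theorem flex_r (x y : V) : x * (y * x) = (2 * ⟪x, star y⟫) • x - ⟪x, x⟫ • star y := by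
  have := mouf x 1 y
  rwa [one_mul, mul_one] at this

theorem mouf_m (x y z : V) : (x * y) * (z * x) = (x * (y * z)) * x := by rw [mouf, flex_l]

theorem mouf_r (x y z : V) : ((z * x) * y) * x = z * ((x * y) * x) := by
  have h := lin_r (star x) y (z * x)
  rw [star_star, inv_r, smul_mul_assoc, inner_star_left] at h
  rw [flex_l, mul_sub, mul_smul_comm, mul_smul_comm]
  linear_combination (norm := module) h

theorem mouf_l (x y z : V) : x * (y * (x * z)) = ((x * y) * x) * z := by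
  have h := lin_l (star x) y (x * z)
  rw [star_star, inv_l, mul_smul_comm, inner_star_left] at h
  rw [flex_l, sub_mul, smul_mul_assoc, smul_mul_assoc]
  linear_combination (norm := module) h

/-- the trilinear form `<x y, z*>` is cyclic -/
theorem cyc (x y z : V) : ⟪x * y, star z⟫ = ⟪y * z, star x⟫ := by
  rw [braid_l, braid_r y z]

theorem star_of_im {x : V} (h : ⟪x, 1⟫ = 0) : star x = -x := by
  rw [star_def, h]
  module

/-- The doubling law. -/
theorem double {A : Submodule ℝ V} (h1 : (1 : V) ∈ A) (hm : ∀ a ∈ A, ∀ b ∈ A, a * b ∈ A) {l : V}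
    (hl : ∀ a ∈ A, ⟪a, l⟫ = 0) (hn : ⟪l, l⟫ = 1) {a b c d : V} (ha : a ∈ A) (hb : b ∈ A)
    (hc : c ∈ A) (hd : d ∈ A) :
    (a + b * l) * (c + d * l) = (a * c - star d * b) + (d * a + b * star c) * l := by
  have hs : ∀ a ∈ A, star a ∈ A := fun a ha => by
    rw [star_def]
    exact sub_mem (A.smul_mem _ h1) ha
  have sl : star l = -l := star_of_im (by rw [real_inner_comm]; exact hl 1 h1)
  have e0 : ∀ a ∈ A, l * a = star a * l := fun a ha => by
    have h := lin_l a l 1
    rw [mul_one, mul_one, hl a ha, sl, neg_mul] at h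
    linear_combination (norm := module) -h
  have e1 : ∀ a ∈ A, ∀ d ∈ A, a * (d * l) = (d * a) * l := fun a ha d hd => by
    have h := lin_l (star a) l (star d)
    rw [star_star, hl _ (hs a ha), sl, e0 _ (hs d hd), star_star, neg_mul, ← star_mul,
      e0 _ (hs _ (hm d hd a ha)), star_star] at h
    linear_combination (norm := module) h
  have e2 : ∀ b ∈ A, ∀ c ∈ A, (b * l) * c = (b * star c) * l := fun b _ c hc => by
    have h := lin_r (star c) l b
    rw [star_star, hl _ (hs c hc), sl, mul_neg] at h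
    linear_combination (norm := module) h
  have e3 : (b * l) * (d * l) = -(star d * b) := by
    have h := mouf l (star b) d
    rw [e0 _ (hs b hb), star_star, real_inner_comm, hl _ (hs _ (hm _ (hs b hb) d hd)), hn, star_mul,
      star_star] at h
    rw [h]
    module
  rw [add_mul, mul_add, mul_add, e1 a ha d hd, e2 b hb c hc, e3, add_mul]
  abel

end CA
end

/-- First quaternion. -/
def q1 (x : O) : ℍ := WithLp.fst x

/-- Second quaternion. -/
def q2 (x : O) : ℍ := WithLp.snd x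

/-- The octonion with the given quaternions. -/
def qo (a b : ℍ) : O := WithLp.toLp 2 (a, b)

@[simp] theorem q1_qo (a b : ℍ) : q1 (qo a b) = a := rfl
@[simp] theorem q2_qo (a b : ℍ) : q2 (qo a b) = b := rfl
@[simp] theorem q1_add (x y : O) : q1 (x + y) = q1 x + q1 y := rfl
@[simp] theorem q2_add (x y : O) : q2 (x + y) = q2 x + q2 y := rfl
@[simp] theorem q1_sub (x y : O) : q1 (x - y) = q1 x - q1 y := rfl
@[simp] theorem q2_sub (x y : O) : q2 (x - y) = q2 x - q2 y := rfl
@[simp] theorem q1_smul (c : ℝ) (x : O) : q1 (c • x) = c • q1 x := rfl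
@[simp] theorem q2_smul (c : ℝ) (x : O) : q2 (c • x) = c • q2 x := rfl
theorem q1_omul (x y : O) : q1 (omul x y) = q1 x * q1 y - star (q2 y) * q2 x := rfl
theorem q2_omul (x y : O) : q2 (omul x y) = q2 y * q1 x + q2 x * star (q1 y) := rfl
theorem q1_ostar (x : O) : q1 (ostar x) = star (q1 x) := rfl
theorem q2_ostar (x : O) : q2 (ostar x) = -q2 x := rfl
theorem q1_oone : q1 oone = 1 := rfl
theorem q2_oone : q2 oone = 0 := rfl

theorem O_inner' (x y : O) : ⟪x, y⟫ = ⟪q1 x, q1 y⟫ + ⟪q2 x, q2 y⟫ :=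
  WithLp.prod_inner_apply (𝕜 := ℝ) (E := ℍ) (F := ℍ) x y

theorem O_inner (x y : O) : ⟪x, y⟫ = (q1 x).re * (q1 y).re + (q1 x).imI * (q1 y).imI +
    (q1 x).imJ * (q1 y).imJ + (q1 x).imK * (q1 y).imK + ((q2 x).re * (q2 y).re +
    (q2 x).imI * (q2 y).imI + (q2 x).imJ * (q2 y).imJ + (q2 x).imK * (q2 y).imK) := by
  rw [O_inner', Quaternion.inner_def, Quaternion.inner_def]
  simp only [Quaternion.re_mul, Quaternion.re_star, Quaternion.imI_star, Quaternion.imJ_star,
    Quaternion.imK_star]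
  ring

theorem O_ext {x y : O} (h1 : q1 x = q1 y) (h2 : q2 x = q2 y) : x = y :=
  (WithLp.ext_iff _).2 (Prod.ext h1 h2)

theorem O_nm (x y : O) : ⟪omul x y, omul x y⟫ = ⟪x, x⟫ * ⟪y, y⟫ := by
  simp only [O_inner, q1_omul, q2_omul, Quaternion.re_sub, Quaternion.imI_sub, Quaternion.imJ_sub,
    Quaternion.imK_sub, Quaternion.re_add, Quaternion.imI_add, Quaternion.imJ_add,
    Quaternion.imK_add, Quaternion.re_mul, Quaternion.imI_mul, Quaternion.imJ_mul,
    Quaternion.imK_mul, Quaternion.re_star, Quaternion.imI_star, Quaternion.imJ_star,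
    Quaternion.imK_star]
  ring

instance O_CA : CA O where
  mul := omul
  one := oone
  star := ostar
  mul_add' x y z := by
    change omul x (y + z) = omul x y + omul x z
    refine O_ext ?_ ?_ <;>
      simp only [q1_omul, q2_omul, q1_add, q2_add, star_add, mul_add, add_mul] <;> abel
  add_mul' x y z := by
    change omul (x + y) z = omul x z + omul y z
    refine O_ext ?_ ?_ <;> simp only [q1_omul, q2_omul, q1_add, q2_add, mul_add, add_mul] <;> abel
  smul_mul' c x y := by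
    change omul (c • x) y = c • omul x y
    refine O_ext ?_ ?_ <;>
      simp only [q1_omul, q2_omul, q1_smul, q2_smul, smul_mul_assoc, mul_smul_comm, smul_sub, smul_add]
  mul_smul' c x y := by
    change omul x (c • y) = c • omul x y
    refine O_ext ?_ ?_ <;>
      simp only [q1_omul, q2_omul, q1_smul, q2_smul, smul_mul_assoc, mul_smul_comm, smul_sub, smul_add,
        Quaternion.star_smul]
  one_mul' x := by
    change omul oone x = x
    refine O_ext ?_ ?_ <;> simp [q1_omul, q2_omul, q1_oone, q2_oone]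
  mul_one' x := by
    change omul x oone = x
    refine O_ext ?_ ?_ <;> simp [q1_omul, q2_omul, q1_oone, q2_oone]
  one_one := by
    change ⟪oone, oone⟫ = 1
    rw [O_inner]
    simp [q1_oone, q2_oone]
  nm := O_nm
  star_def x := by
    change ostar x = (2 * ⟪x, oone⟫) • oone - x
    rw [O_inner]
    refine O_ext ?_ ?_
    · ext <;> simp [q1_oone, q2_oone, q1_ostar]
      ring
    · simp [q2_oone, q2_ostar]

instance O_fin : FiniteDimensional ℝ O := inferInstanceAs (FiniteDimensional ℝ (WithLp 2 (ℍ × ℍ)))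

theorem omul_eq (x y : O) : omul x y = x * y := rfl

theorem ostar_eq (x : O) : ostar x = star x := rfl

theorem oone_eq : oone = 1 := rfl

theorem finrank_O : Module.finrank ℝ O = 8 := by
  change Module.finrank ℝ (WithLp 2 (ℍ × ℍ)) = 8
  rw [(WithLp.linearEquiv 2 ℝ (ℍ × ℍ)).finrank_eq, Module.finrank_prod, Quaternion.finrank_eq_four]

/-- The product as a continuous bilinear map. -/
def mulL : O →L[ℝ] O →L[ℝ] O :=
  LinearMap.toContinuousLinearMap
    (((LinearMap.toContinuousLinearMap : (O →ₗ[ℝ] O) ≃ₗ[ℝ] O →L[ℝ] O) :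
      (O →ₗ[ℝ] O) →ₗ[ℝ] O →L[ℝ] O).comp (LinearMap.mk₂ ℝ (fun x y : O => x * y)
      add_mul smul_mul_assoc mul_add mul_smul_comm))

theorem mulL_apply (x y : O) : mulL x y = x * y := rfl

/-- Conjugation as a continuous linear map. -/
def starL : O →L[ℝ] O :=
  LinearMap.toContinuousLinearMap
    { toFun := star, map_add' := star_add, map_smul' := fun c x => by simp [star_smul] }

theorem starL_apply (x : O) : starL x = star x := rfl

instance O_contMul : ContinuousMul O := ⟨mulL.continuous₂⟩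

instance O_contStar : ContinuousStar O := ⟨starL.continuous⟩

theorem O_norm_mul (x y : O) : ‖x * y‖ = ‖x‖ * ‖y‖ := by
  have h := CA.nm x y
  simp only [real_inner_self_eq_norm_sq] at h
  rw [← mul_pow] at h
  exact (sq_eq_sq₀ (norm_nonneg _) (by positivity)).1 h

theorem O_norm_star (x : O) : ‖star x‖ = ‖x‖ := by
  have h := CA.inner_star x x
  simp only [real_inner_self_eq_norm_sq] at h
  exact (sq_eq_sq₀ (norm_nonneg _) (norm_nonneg _)).1 h

end Pool.Agent.Work.MP_8c604c_gt.OM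
end
end

-- merged part: Pool.Agent.Work.MP_8c604c_gt.OM.Jor
section
/-!
Coordinates on the Hermitian matrices, the cross product `cr`, the adjoint `sh`, the cubic form `nrm`.
-/

set_option maxSynthPendingDepth 3

open scoped ContDiff RealInnerProductSpace

noncomputable section
namespace Pool.Agent.Work.MP_8c604c_gt.OM

instance J_fin : FiniteDimensional ℝ J := inferInstanceAs (FiniteDimensional ℝ herm)

instance J_meas : MeasurableSpace J := borel J

instance J_borel : BorelSpace J := ⟨rfl⟩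

instance O_meas : MeasurableSpace O := borel O

instance O_borel : BorelSpace O := ⟨rfl⟩

/-- The Hermitian matrix with diagonal `a, b, c` and entries `x, y, z` at the places `12, 20, 01`. -/
def mk (a b c : ℝ) (x y z : O) : J :=
  ⟨WithLp.toLp 2 fun p => !![a • (1 : O), z, star y; star z, b • (1 : O), x; y, star x, c • (1 : O)] p.1 p.2,
    fun i j => by
      fin_cases i <;> fin_cases j <;> simp [ostar_eq]⟩

/-- An entry. -/
def ent (i j : Fin 3) : J →L[ℝ] O :=
  (PiLp.proj 2 (fun _ : Fin 3 × Fin 3 => O) (i, j) : Mat →L[ℝ] O).comp herm.subtypeL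

theorem ent_apply (i j : Fin 3) (X : J) : ent i j X = X.1 (i, j) := rfl

theorem ent_star (X : J) (i j : Fin 3) : X.1 (j, i) = star (X.1 (i, j)) := X.2 i j

/-- First diagonal entry. -/
def d0 : J →L[ℝ] ℝ := (innerSL ℝ (1 : O)).comp (ent 0 0)
/-- Second diagonal entry. -/
def d1 : J →L[ℝ] ℝ := (innerSL ℝ (1 : O)).comp (ent 1 1)
/-- Third diagonal entry. -/
def d2 : J →L[ℝ] ℝ := (innerSL ℝ (1 : O)).comp (ent 2 2)
/-- The entry `12`. -/
def x0 : J →L[ℝ] O := ent 1 2
/-- The entry `20`. -/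
def x1 : J →L[ℝ] O := ent 2 0
/-- The entry `01`. -/
def x2 : J →L[ℝ] O := ent 0 1

section
variable (a b c : ℝ) (x y z : O)

@[simp] theorem d0_mk : d0 (mk a b c x y z) = a := by
  change ⟪(1 : O), a • (1 : O)⟫ = a
  rw [real_inner_smul_right, CA.one_one, mul_one]

@[simp] theorem d1_mk : d1 (mk a b c x y z) = b := by
  change ⟪(1 : O), b • (1 : O)⟫ = b
  rw [real_inner_smul_right, CA.one_one, mul_one]

@[simp] theorem d2_mk : d2 (mk a b c x y z) = c := by
  change ⟪(1 : O), c • (1 : O)⟫ = c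
  rw [real_inner_smul_right, CA.one_one, mul_one]

@[simp] theorem x0_mk : x0 (mk a b c x y z) = x := rfl

@[simp] theorem x1_mk : x1 (mk a b c x y z) = y := rfl

@[simp] theorem x2_mk : x2 (mk a b c x y z) = z := rfl

end

theorem ent_diag (X : J) (i : Fin 3) : X.1 (i, i) = ⟪(1 : O), X.1 (i, i)⟫ • (1 : O) := by
  have h := ent_star X i i
  rw [CA.star_def, real_inner_comm] at h
  linear_combination (norm := module) (1 / 2 : ℝ) • h

theorem mk_eta (X : J) : mk (d0 X) (d1 X) (d2 X) (x0 X) (x1 X) (x2 X) = X := by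
  refine Subtype.ext (PiLp.ext fun p => ?_)
  obtain ⟨i, j⟩ := p
  fin_cases i <;> fin_cases j
  · exact (ent_diag X 0).symm
  · rfl
  · exact (ent_star X 2 0).symm
  · exact (ent_star X 0 1).symm
  · exact (ent_diag X 1).symm
  · rfl
  · rfl
  · exact (ent_star X 1 2).symm
  · exact (ent_diag X 2).symm

theorem J_ext {X Y : J} (h0 : d0 X = d0 Y) (h1 : d1 X = d1 Y) (h2 : d2 X = d2 Y) (h3 : x0 X = x0 Y)
    (h4 : x1 X = x1 Y) (h5 : x2 X = x2 Y) : X = Y := by
  rw [← mk_eta X, h0, h1, h2, h3, h4, h5, mk_eta]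

theorem exists_mk (X : J) : ∃ a b c x y z, X = mk a b c x y z := ⟨_, _, _, _, _, _, (mk_eta X).symm⟩

theorem mk_inj {a b c a' b' c' : ℝ} {x y z x' y' z' : O} : mk a b c x y z = mk a' b' c' x' y' z' ↔
    a = a' ∧ b = b' ∧ c = c' ∧ x = x' ∧ y = y' ∧ z = z' := by
  refine ⟨fun h => ⟨?_, ?_, ?_, congrArg x0 h, congrArg x1 h, congrArg x2 h⟩, ?_⟩
  · simpa using congrArg d0 h
  · simpa using congrArg d1 h
  · simpa using congrArg d2 h
  · rintro ⟨rfl, rfl, rfl, rfl, rfl, rfl⟩
    rfl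

theorem mk_add (a b c a' b' c' : ℝ) (x y z x' y' z' : O) : mk a b c x y z + mk a' b' c' x' y' z' =
    mk (a + a') (b + b') (c + c') (x + x') (y + y') (z + z') := by
  apply J_ext <;> simp

theorem mk_sub (a b c a' b' c' : ℝ) (x y z x' y' z' : O) : mk a b c x y z - mk a' b' c' x' y' z' =
    mk (a - a') (b - b') (c - c') (x - x') (y - y') (z - z') := by
  apply J_ext <;> simp

theorem mk_smul (t a b c : ℝ) (x y z : O) : t • mk a b c x y z =
    mk (t * a) (t * b) (t * c) (t • x) (t • y) (t • z) := by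
  apply J_ext <;> simp

theorem mk_neg (a b c : ℝ) (x y z : O) : -mk a b c x y z = mk (-a) (-b) (-c) (-x) (-y) (-z) := by
  apply J_ext <;> simp

theorem mk_zero : mk 0 0 0 0 0 0 = 0 := by
  apply J_ext <;> simp

theorem inner_mk (a b c a' b' c' : ℝ) (x y z x' y' z' : O) : ⟪mk a b c x y z, mk a' b' c' x' y' z'⟫ =
    a * a' + b * b' + c * c' + 2 * ⟪x, x'⟫ + 2 * ⟪y, y'⟫ + 2 * ⟪z, z'⟫ := by
  change inner ℝ (mk a b c x y z).1 (mk a' b' c' x' y' z').1 = _
  rw [PiLp.inner_apply, Fintype.sum_prod_type]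
  simp only [Fin.sum_univ_three]
  change ⟪a • (1 : O), a' • (1 : O)⟫ + ⟪z, z'⟫ + ⟪star y, star y'⟫ +
    (⟪star z, star z'⟫ + ⟪b • (1 : O), b' • (1 : O)⟫ + ⟪x, x'⟫) +
    (⟪y, y'⟫ + ⟪star x, star x'⟫ + ⟪c • (1 : O), c' • (1 : O)⟫) = _
  simp only [CA.inner_star, real_inner_smul_left, real_inner_smul_right, CA.one_one]
  ring

theorem inner_J (X Y : J) : ⟪X, Y⟫ = d0 X * d0 Y + d1 X * d1 Y + d2 X * d2 Y + 2 * ⟪x0 X, x0 Y⟫ +
    2 * ⟪x1 X, x1 Y⟫ + 2 * ⟪x2 X, x2 Y⟫ := by
  rw [← inner_mk, mk_eta, mk_eta]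

/-- The coordinates as a linear equivalence. -/
def coord : J ≃ₗ[ℝ] (ℝ × ℝ × ℝ × O × O × O) where
  toFun X := (d0 X, d1 X, d2 X, x0 X, x1 X, x2 X)
  invFun p := mk p.1 p.2.1 p.2.2.1 p.2.2.2.1 p.2.2.2.2.1 p.2.2.2.2.2
  map_add' X Y := by simp
  map_smul' c X := by simp
  left_inv := mk_eta
  right_inv p := by simp

theorem finrank_J : Module.finrank ℝ J = 27 := by
  rw [coord.finrank_eq]
  simp [finrank_O]

/-- `mk` as a continuous linear map. -/
def mkL : (ℝ × ℝ × ℝ × O × O × O) →L[ℝ] J := LinearMap.toContinuousLinearMap coord.symm.toLinearMap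

theorem mkL_apply (a b c : ℝ) (x y z : O) : mkL (a, b, c, x, y, z) = mk a b c x y z := rfl

theorem contDiff_mk {X : Type} [NormedAddCommGroup X] [NormedSpace ℝ X] {n : WithTop ℕ∞}
    {a b c : X → ℝ} {x y z : X → O} (ha : ContDiff ℝ n a) (hb : ContDiff ℝ n b) (hc : ContDiff ℝ n c)
    (hx : ContDiff ℝ n x) (hy : ContDiff ℝ n y) (hz : ContDiff ℝ n z) :
    ContDiff ℝ n fun p => mk (a p) (b p) (c p) (x p) (y p) (z p) :=
  mkL.contDiff.comp (ha.prodMk (hb.prodMk (hc.prodMk (hx.prodMk (hy.prodMk hz)))))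

@[fun_prop] theorem continuous_mk {X : Type} [TopologicalSpace X]
    {a b c : X → ℝ} {x y z : X → O} (ha : Continuous a) (hb : Continuous b) (hc : Continuous c)
    (hx : Continuous x) (hy : Continuous y) (hz : Continuous z) :
    Continuous fun p => mk (a p) (b p) (c p) (x p) (y p) (z p) :=
  mkL.continuous.comp (ha.prodMk (hb.prodMk (hc.prodMk (hx.prodMk (hy.prodMk hz)))))

/-- The cross product, as a function. -/
def crF (X Y : J) : J :=
  mk (d1 X * d2 Y + d2 X * d1 Y - 2 * ⟪x0 X, x0 Y⟫) (d2 X * d0 Y + d0 X * d2 Y - 2 * ⟪x1 X, x1 Y⟫)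
    (d0 X * d1 Y + d1 X * d0 Y - 2 * ⟪x2 X, x2 Y⟫)
    (star (x1 X * x2 Y) + star (x1 Y * x2 X) - d0 X • x0 Y - d0 Y • x0 X)
    (star (x2 X * x0 Y) + star (x2 Y * x0 X) - d1 X • x1 Y - d1 Y • x1 X)
    (star (x0 X * x1 Y) + star (x0 Y * x1 X) - d2 X • x2 Y - d2 Y • x2 X)

theorem crF_comm (X Y : J) : crF X Y = crF Y X := by
  simp only [crF, mk_inj, real_inner_comm (x0 X), real_inner_comm (x1 X), real_inner_comm (x2 X)]
  refine ⟨by ring, by ring, by ring, by abel, by abel, by abel⟩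

theorem crF_add (X Y Z : J) : crF X (Y + Z) = crF X Y + crF X Z := by
  simp only [crF, mk_add, mk_inj, map_add, inner_add_right, mul_add, add_mul, star_add]
  refine ⟨by ring, by ring, by ring, by module, by module, by module⟩

theorem crF_smul (t : ℝ) (X Y : J) : crF X (t • Y) = t • crF X Y := by
  simp only [crF, mk_smul, mk_inj, map_smul, real_inner_smul_right, smul_mul_assoc, mul_smul_comm,
    star_smul, star_trivial, smul_eq_mul]
  refine ⟨by ring, by ring, by ring, by module, by module, by module⟩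

/-- The cross product. -/
def cr : J →L[ℝ] J →L[ℝ] J :=
  LinearMap.toContinuousLinearMap
    (((LinearMap.toContinuousLinearMap : (J →ₗ[ℝ] J) ≃ₗ[ℝ] J →L[ℝ] J) :
      (J →ₗ[ℝ] J) →ₗ[ℝ] J →L[ℝ] J).comp (LinearMap.mk₂ ℝ crF
      (fun X Y Z => by rw [crF_comm, crF_add, crF_comm Z, crF_comm Z])
      (fun t X Y => by rw [crF_comm, crF_smul, crF_comm]) crF_add crF_smul))

theorem cr_apply (X Y : J) : cr X Y = crF X Y := rfl

theorem cr_comm (X Y : J) : cr X Y = cr Y X := crF_comm X Y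

theorem cr_mk (a b c a' b' c' : ℝ) (x y z x' y' z' : O) : cr (mk a b c x y z) (mk a' b' c' x' y' z') =
    mk (b * c' + c * b' - 2 * ⟪x, x'⟫) (c * a' + a * c' - 2 * ⟪y, y'⟫) (a * b' + b * a' - 2 * ⟪z, z'⟫)
      (star (y * z') + star (y' * z) - a • x' - a' • x) (star (z * x') + star (z' * x) - b • y' - b' • y)
      (star (x * y') + star (x' * y) - c • z' - c' • z) := by
  simp only [cr_apply, crF, d0_mk, d1_mk, d2_mk, x0_mk, x1_mk, x2_mk]

/-- The adjoint. -/
def sh (X : J) : J := (1 / 2 : ℝ) • cr X X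

theorem sh_mk (a b c : ℝ) (x y z : O) : sh (mk a b c x y z) =
    mk (b * c - ⟪x, x⟫) (c * a - ⟪y, y⟫) (a * b - ⟪z, z⟫) (star (y * z) - a • x) (star (z * x) - b • y)
      (star (x * y) - c • z) := by
  simp only [sh, cr_mk, mk_smul, mk_inj]
  refine ⟨by ring, by ring, by ring, by module, by module, by module⟩

theorem cr_self (X : J) : cr X X = (2 : ℝ) • sh X := by
  rw [sh]
  module

theorem sh_add (X Y : J) : sh (X + Y) = sh X + cr X Y + sh Y := by
  simp only [sh, map_add, add_apply, cr_comm Y X]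
  module

theorem sh_smul (t : ℝ) (X : J) : sh (t • X) = t ^ 2 • sh X := by
  simp only [sh, map_smul, smul_apply]
  module

theorem contDiff_sh {n : WithTop ℕ∞} : ContDiff ℝ n sh :=
  (cr.contDiff.clm_apply contDiff_id).const_smul _

theorem hasFDerivAt_sh (X : J) : HasFDerivAt sh (cr X) X := by
  have h := (cr.hasFDerivAt_of_bilinear (hasFDerivAt_id X) (hasFDerivAt_id X)).const_smul (1 / 2 : ℝ)
  refine h.congr_fderiv ?_
  ext1 u
  simp [cr_comm u X]
  module

/-- The trace. -/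
def tr : J →L[ℝ] ℝ := d0 + d1 + d2

theorem tr_mk (a b c : ℝ) (x y z : O) : tr (mk a b c x y z) = a + b + c := by simp [tr]

/-- The unit matrix. -/
def one : J := mk 1 1 1 0 0 0

/-- The base point. -/
def e0 : J := mk 1 0 0 0 0 0

theorem inner_one (X : J) : ⟪one, X⟫ = tr X := by
  obtain ⟨a, b, c, x, y, z, rfl⟩ := exists_mk X
  simp [one, inner_mk, tr_mk]

theorem inner_e0 (X : J) : ⟪e0, X⟫ = d0 X := by
  obtain ⟨a, b, c, x, y, z, rfl⟩ := exists_mk X
  simp [e0, inner_mk]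

theorem cr_one (X : J) : cr one X = tr X • one - X := by
  obtain ⟨a, b, c, x, y, z, rfl⟩ := exists_mk X
  simp only [one, cr_mk, tr_mk, mk_smul, mk_sub, mk_inj]
  simp
  refine ⟨by ring, by ring, by ring⟩

theorem sh_one : sh one = one := by simp [one, sh_mk]

theorem tr_one : tr one = 3 := by
  rw [one, tr_mk]
  norm_num

theorem tr_cr (X Y : J) : tr (cr X Y) = tr X * tr Y - ⟪X, Y⟫ := by
  obtain ⟨a, b, c, x, y, z, rfl⟩ := exists_mk X
  obtain ⟨a', b', c', x', y', z', rfl⟩ := exists_mk Y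
  simp only [cr_mk, tr_mk, inner_mk]
  ring

theorem inner_self_J (X : J) : ⟪X, X⟫ = tr X ^ 2 - 2 * tr (sh X) := by
  have h := tr_cr X X
  rw [cr_self, map_smul, smul_eq_mul] at h
  linarith

/-- The form `<X x Y, Z>` is symmetric. -/
theorem inner_cr (X Y Z : J) : ⟪cr X Y, Z⟫ = ⟪Y, cr X Z⟫ := by
  obtain ⟨a, b, c, x, y, z, rfl⟩ := exists_mk X
  obtain ⟨a', b', c', x', y', z', rfl⟩ := exists_mk Y
  obtain ⟨a'', b'', c'', x'', y'', z'', rfl⟩ := exists_mk Z
  have k : ∀ p q r : O, ⟪r, star (p * q)⟫ = ⟪p * q, star r⟫ := fun p q r => by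
    rw [real_inner_comm, CA.inner_star_left]
  simp only [cr_mk, inner_mk, inner_sub_left, inner_add_left, inner_sub_right, inner_add_right,
    real_inner_smul_left, real_inner_smul_right, CA.inner_star_left, k]
  rw [CA.cyc y z' x'', CA.cyc y' z x'', CA.cyc z x' y'', CA.cyc z' x y'', CA.cyc x y' z'',
    CA.cyc x' y z'', CA.cyc y z'' x', CA.cyc x y'' z', CA.cyc y' z'' x, CA.cyc x' y'' z,
    CA.cyc z' x'' y,
    real_inner_comm x x', real_inner_comm y y', real_inner_comm z z']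
  ring

/-- The cubic form. -/
def nrm (X : J) : ℝ := ⟪sh X, X⟫ / 3

theorem nrm_mk (a b c : ℝ) (x y z : O) : nrm (mk a b c x y z) =
    a * b * c - a * ⟪x, x⟫ - b * ⟪y, y⟫ - c * ⟪z, z⟫ + 2 * ⟪x * y, star z⟫ := by
  simp only [nrm, sh_mk, inner_mk, inner_sub_left, real_inner_smul_left, CA.inner_star_left]
  rw [← CA.cyc y z x, ← CA.cyc x y z]
  ring

theorem adj_aux (a b c : ℝ) (x y z : O) :
    star ((star (z * x) - b • y) * (star (x * y) - c • z)) - (b * c - ⟪x, x⟫) • (star (y * z) - a • x) =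
      (a * b * c - a * ⟪x, x⟫ - b * ⟪y, y⟫ - c * ⟪z, z⟫ + 2 * ⟪x * y, star z⟫) • x := by
  have e : ⟪x, star (y * z)⟫ = ⟪x * y, star z⟫ := by
    rw [CA.cyc, real_inner_comm, CA.inner_star_left]
  rw [star_mul, star_sub, star_sub, star_star, star_star, star_smul, star_smul, star_trivial b,
    star_trivial c, sub_mul, mul_sub, mul_sub, CA.mouf, e, mul_smul_comm, CA.inv_r, smul_mul_assoc,
    CA.inv_l, smul_mul_assoc, mul_smul_comm, ← star_mul]
  module

theorem adj_aux' (a b c : ℝ) (x y z : O) :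
    (c * a - ⟪y, y⟫) * (a * b - ⟪z, z⟫) - ⟪star (y * z) - a • x, star (y * z) - a • x⟫ =
      (a * b * c - a * ⟪x, x⟫ - b * ⟪y, y⟫ - c * ⟪z, z⟫ + 2 * ⟪x * y, star z⟫) * a := by
  have e : ⟪star (y * z), x⟫ = ⟪x * y, star z⟫ := by rw [CA.cyc, CA.inner_star_left]
  simp only [inner_sub_left, inner_sub_right, real_inner_smul_left, real_inner_smul_right,
    CA.inner_star, CA.nm, real_inner_comm (star (y * z)) x, e]
  ring

/-- The adjoint identity. -/
theorem sh_sh (X : J) : sh (sh X) = nrm X • X := by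
  obtain ⟨a, b, c, x, y, z, rfl⟩ := exists_mk X
  rw [sh_mk, sh_mk, nrm_mk, mk_smul, mk_inj]
  refine ⟨adj_aux' a b c x y z, ?_, ?_, adj_aux a b c x y z, ?_, ?_⟩
  · rw [adj_aux' b c a y z x, ← CA.cyc x y z]
    ring
  · rw [adj_aux' c a b z x y, CA.cyc z x y]
    ring
  · rw [adj_aux b c a y z x, ← CA.cyc x y z]
    congr 1
    ring
  · rw [adj_aux c a b z x y, CA.cyc z x y]
    congr 1
    ring

theorem mem_CaP {X : J} : X ∈ CaP ↔ sh X = 0 ∧ tr X = 1 := by
  obtain ⟨a, b, c, x, y, z, rfl⟩ := exists_mk X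
  have h1 : ∀ s t : ℝ, s • (1 : O) = t • (1 : O) ↔ s = t := fun s t =>
    ⟨fun h => by simpa only [real_inner_smul_right, CA.one_one, mul_one] using congrArg (inner ℝ (1 : O)) h,
      fun h => by rw [h]⟩
  have e : (∑ i, (mk a b c x y z).1 (i, i) = oone) ↔ a + b + c = 1 := by
    rw [Fin.sum_univ_three, ← h1, one_smul, add_smul, add_smul]
    rfl
  have f : (∀ i j, ∑ k, omul ((mk a b c x y z).1 (i, k)) ((mk a b c x y z).1 (k, j)) =
      (mk a b c x y z).1 (i, j)) ↔
      ((a • (1 : O) * a • (1 : O) + z * star z + star y * y = a • 1 ∧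
        a • (1 : O) * z + z * b • (1 : O) + star y * star x = z ∧
        a • (1 : O) * star y + z * x + star y * c • (1 : O) = star y) ∧
      (star z * a • (1 : O) + b • (1 : O) * star z + x * y = star z ∧
        star z * z + b • (1 : O) * b • (1 : O) + x * star x = b • 1 ∧
        star z * star y + b • (1 : O) * x + x * c • (1 : O) = x) ∧
      (y * a • (1 : O) + star x * star z + c • (1 : O) * y = y ∧
        y * z + star x * b • (1 : O) + c • (1 : O) * star x = star x ∧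
        y * star y + star x * x + c • (1 : O) * c • (1 : O) = c • 1)) := by
    simp only [Fin.forall_fin_succ, Fin.sum_univ_three, IsEmpty.forall_iff, and_true]
    rfl
  rw [CaP, Set.mem_ofPred_eq, e, f, sh_mk, ← mk_zero, mk_inj, tr_mk]
  simp only [smul_mul_assoc, mul_smul_comm, one_mul, mul_one, CA.star_mul_self', CA.mul_star_self',
    smul_smul, ← add_smul, h1, ← star_mul]
  constructor
  · rintro ⟨⟨⟨k0, k1, -⟩, ⟨-, k2, k3⟩, k4, -, k5⟩, k⟩
    refine ⟨⟨?_, ?_, ?_, ?_, ?_, ?_⟩, k⟩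
    · linear_combination (1 / 2) * (k0 - k2 - k5) + (1 / 2) * (b + c - a) * k
    · linear_combination (1 / 2) * (k2 - k0 - k5) + (1 / 2) * (a + c - b) * k
    · linear_combination (1 / 2) * (k5 - k0 - k2) + (1 / 2) * (a + b - c) * k
    · linear_combination (norm := module) k3 - k • x
    · linear_combination (norm := module) k4 - k • y
    · linear_combination (norm := module) k1 - k • z
  · rintro ⟨⟨k0, k1, k2, k3, k4, k5⟩, k⟩
    have s3 := congrArg star k3
    have s4 := congrArg star k4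
    have s5 := congrArg star k5
    simp only [star_sub, star_star, star_smul, star_trivial, star_zero] at s3 s4 s5
    refine ⟨⟨⟨?_, ?_, ?_⟩, ⟨?_, ?_, ?_⟩, ?_, ?_, ?_⟩, k⟩
    · linear_combination a * k - k1 - k2
    · linear_combination (norm := module) k5 + k • z
    · linear_combination (norm := module) s4 + k • star y
    · linear_combination (norm := module) s5 + k • star z
    · linear_combination b * k - k0 - k2
    · linear_combination (norm := module) k3 + k • x
    · linear_combination (norm := module) k4 + k • y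
    · linear_combination (norm := module) s3 + k • star x
    · linear_combination c * k - k0 - k1

theorem mk_mem {a b c : ℝ} {x y z : O} : mk a b c x y z ∈ CaP ↔ (b * c = ⟪x, x⟫ ∧ c * a = ⟪y, y⟫ ∧
    a * b = ⟪z, z⟫ ∧ star (y * z) = a • x ∧ star (z * x) = b • y ∧ star (x * y) = c • z) ∧
    a + b + c = 1 := by
  rw [mem_CaP, sh_mk, ← mk_zero, mk_inj, tr_mk]
  simp only [sub_eq_zero]

theorem e0_mem : e0 ∈ CaP := by simp [e0, mk_mem]

theorem inner_self_mem {p : J} (hp : p ∈ CaP) : ⟪p, p⟫ = 1 := by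
  rw [inner_self_J, (mem_CaP.1 hp).1, (mem_CaP.1 hp).2]
  simp

theorem norm_mem {p : J} (hp : p ∈ CaP) : ‖p‖ = 1 := by
  have h := inner_self_mem hp
  rw [real_inner_self_eq_norm_sq] at h
  exact (pow_eq_one_iff_of_nonneg (norm_nonneg _) two_ne_zero).1 h

theorem isClosed_CaP : IsClosed CaP := by
  have : CaP = {X | sh X = 0} ∩ {X | tr X = 1} := Set.ext fun _ => mem_CaP
  rw [this]
  exact (isClosed_eq (contDiff_sh (n := 0)).continuous continuous_const).inter
    (isClosed_eq tr.continuous continuous_const)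

theorem isCompact_CaP : IsCompact CaP :=
  (isCompact_sphere (0 : J) 1).of_isClosed_subset isClosed_CaP fun p hp => by simpa using norm_mem hp

end Pool.Agent.Work.MP_8c604c_gt.OM
end
end

-- merged part: Pool.Agent.Work.MP_8c604c_gt.OM.Aut
section
/-!
Automorphisms of the Hermitian matrices; they act transitively on the Cayley plane. The tangent projector and the
affine charts.
-/

set_option maxSynthPendingDepth 3
set_option maxHeartbeats 400000

open scoped ContDiff RealInnerProductSpace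

noncomputable section
namespace Pool.Agent.Work.MP_8c604c_gt.OM

/-- `A` preserves the adjoint and the trace. -/
structure IsAut (A : J ≃ₗᵢ[ℝ] J) : Prop where
  sh : ∀ X, A (sh X) = sh (A X)
  tr : ∀ X, tr (A X) = tr X

namespace IsAut
variable {A B : J ≃ₗᵢ[ℝ] J}

theorem refl : IsAut (LinearIsometryEquiv.refl ℝ J) := ⟨fun _ => rfl, fun _ => rfl⟩

theorem trans (hA : IsAut A) (hB : IsAut B) : IsAut (A.trans B) :=
  ⟨fun X => by rw [LinearIsometryEquiv.trans_apply, hA.sh, hB.sh, LinearIsometryEquiv.trans_apply],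
    fun X => by rw [LinearIsometryEquiv.trans_apply, hB.tr, hA.tr]⟩

theorem symm (hA : IsAut A) : IsAut A.symm :=
  ⟨fun X => A.injective (by rw [A.apply_symm_apply, hA.sh, A.apply_symm_apply]),
    fun X => by rw [← hA.tr, A.apply_symm_apply]⟩

theorem cr (hA : IsAut A) (X Y : J) : A (cr X Y) = cr (A X) (A Y) := by
  have h := hA.sh (X + Y)
  rw [sh_add, map_add, map_add, map_add, sh_add, hA.sh, hA.sh] at h
  exact add_left_cancel (add_right_cancel h)

theorem one (hA : IsAut A) : A one = one := ext_inner_right ℝ fun X => by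
  obtain ⟨Y, rfl⟩ := A.surjective X
  rw [A.inner_map_map, inner_one, inner_one, hA.tr]

theorem nrm (hA : IsAut A) (X : J) : nrm (A X) = nrm X := by
  rw [OM.nrm, ← hA.sh, A.inner_map_map, OM.nrm]

theorem mem_iff (hA : IsAut A) {X : J} : A X ∈ CaP ↔ X ∈ CaP := by
  rw [mem_CaP, mem_CaP, ← hA.sh, hA.tr, map_eq_zero_iff A A.injective]

theorem mem (hA : IsAut A) {X : J} (hX : X ∈ CaP) : A X ∈ CaP := hA.mem_iff.2 hX

end IsAut

/-- A linear map that preserves adjoint and trace is an isometry. -/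
def mkAut (A : J →ₗ[ℝ] J) (h1 : ∀ X, A (sh X) = sh (A X)) (h2 : ∀ X, tr (A X) = tr X) : J ≃ₗᵢ[ℝ] J :=
  LinearIsometry.toLinearIsometryEquiv
    { A with
      norm_map' := fun X => by
        have h : ⟪A X, A X⟫ = ⟪X, X⟫ := by rw [inner_self_J, inner_self_J, ← h1, h2, h2]
        rw [real_inner_self_eq_norm_sq, real_inner_self_eq_norm_sq] at h
        exact (sq_eq_sq₀ (norm_nonneg _) (norm_nonneg _)).1 h } rfl

theorem mkAut_apply (A : J →ₗ[ℝ] J) (h1 h2) (X : J) : mkAut A h1 h2 X = A X := rfl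

theorem isAut_mkAut (A : J →ₗ[ℝ] J) (h1 h2) : IsAut (mkAut A h1 h2) := ⟨h1, h2⟩

/-- Cyclic permutation, as a linear map. -/
def cycL : J →ₗ[ℝ] J where
  toFun X := mk (d1 X) (d2 X) (d0 X) (x1 X) (x2 X) (x0 X)
  map_add' X Y := by simp only [map_add, mk_add]
  map_smul' t X := by simp only [map_smul, mk_smul, smul_eq_mul, RingHom.id_apply]

theorem cycL_mk (a b c : ℝ) (x y z : O) : cycL (mk a b c x y z) = mk b c a y z x := by
  simp [cycL]

/-- Cyclic permutation. -/
def cyc : J ≃ₗᵢ[ℝ] J := mkAut cycL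
  (fun X => by
    obtain ⟨a, b, c, x, y, z, rfl⟩ := exists_mk X
    rw [sh_mk, cycL_mk, cycL_mk, sh_mk])
  (fun X => by
    obtain ⟨a, b, c, x, y, z, rfl⟩ := exists_mk X
    rw [cycL_mk, tr_mk, tr_mk]
    ring)

theorem cyc_mk (a b c : ℝ) (x y z : O) : cyc (mk a b c x y z) = mk b c a y z x := cycL_mk ..

theorem isAut_cyc : IsAut cyc := isAut_mkAut _ _ _

/-- The Moufang map, as a linear map. -/
def mfL (u : O) : J →ₗ[ℝ] J where
  toFun X := mk (d0 X) (d1 X) (d2 X) (u * x0 X) (x1 X * u) (star u * x2 X * star u)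
  map_add' X Y := by simp only [map_add, mk_add, mul_add, add_mul]
  map_smul' t X := by
    simp only [map_smul, mk_smul, smul_eq_mul, RingHom.id_apply, mul_smul_comm, smul_mul_assoc]

theorem mfL_mk (u : O) (a b c : ℝ) (x y z : O) :
    mfL u (mk a b c x y z) = mk a b c (u * x) (y * u) (star u * z * star u) := by
  simp [mfL]

theorem mfL_sh {u : O} (hu : ⟪u, u⟫ = 1) (X : J) : mfL u (sh X) = sh (mfL u X) := by
  obtain ⟨a, b, c, x, y, z, rfl⟩ := exists_mk X
  have e1 : y * u * (star u * z * star u) = y * z * star u := by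
    rw [← CA.mouf_r, CA.inv_r, hu, one_smul]
  have e2 : star u * z * star u * (u * x) = star u * (z * x) := by
    rw [← CA.mouf_l, CA.inv_l, hu, one_smul]
  have e3 : star (u * x * (y * u)) = star u * star (x * y) * star u := by
    rw [CA.mouf_m, star_mul, star_mul, CA.flex_l, CA.flex_r]
  rw [sh_mk, mfL_mk, mfL_mk, sh_mk, e1, e2, e3]
  simp only [CA.nm, CA.inner_star, hu, one_mul, mul_one, star_mul, star_star, mul_sub, sub_mul,
    mul_smul_comm, smul_mul_assoc]

/-- The Moufang map. -/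
def mf (u : O) (hu : ⟪u, u⟫ = 1) : J ≃ₗᵢ[ℝ] J := mkAut (mfL u) (mfL_sh hu) fun X => by
  obtain ⟨a, b, c, x, y, z, rfl⟩ := exists_mk X
  rw [mfL_mk, tr_mk, tr_mk]

theorem mf_mk (u : O) (hu : ⟪u, u⟫ = 1) (a b c : ℝ) (x y z : O) :
    mf u hu (mk a b c x y z) = mk a b c (u * x) (y * u) (star u * z * star u) := mfL_mk ..

theorem isAut_mf (u : O) (hu : ⟪u, u⟫ = 1) : IsAut (mf u hu) := isAut_mkAut _ _ _

/-- Conjugation by the matrix with entries `w` and the block `[[k, s], [-s, k]]`. -/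
def rotL (w k s : ℝ) : J →ₗ[ℝ] J where
  toFun X := mk (w ^ 2 * d0 X) (k ^ 2 * d1 X + 2 * k * s * ⟪x0 X, 1⟫ + s ^ 2 * d2 X)
    (s ^ 2 * d1 X - 2 * k * s * ⟪x0 X, 1⟫ + k ^ 2 * d2 X)
    ((k * s * (d2 X - d1 X) - 2 * s ^ 2 * ⟪x0 X, 1⟫) • (1 : O) + (k ^ 2 + s ^ 2) • x0 X)
    ((w * k) • x1 X - (w * s) • star (x2 X)) ((w * k) • x2 X + (w * s) • star (x1 X))
  map_add' X Y := by
    simp only [map_add, mk_add, mk_inj, inner_add_left, star_add]
    refine ⟨by ring, by ring, by ring, by module, by module, by module⟩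
  map_smul' t X := by
    simp only [map_smul, mk_smul, smul_eq_mul, RingHom.id_apply, mk_inj, real_inner_smul_left, star_smul,
      star_trivial]
    refine ⟨by ring, by ring, by ring, by module, by module, by module⟩

theorem rotL_mk (w k s a b c : ℝ) (x y z : O) : rotL w k s (mk a b c x y z) =
    mk (w ^ 2 * a) (k ^ 2 * b + 2 * k * s * ⟪x, 1⟫ + s ^ 2 * c) (s ^ 2 * b - 2 * k * s * ⟪x, 1⟫ + k ^ 2 * c)
      ((k * s * (c - b) - 2 * s ^ 2 * ⟪x, 1⟫) • (1 : O) + (k ^ 2 + s ^ 2) • x)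
      ((w * k) • y - (w * s) • star z) ((w * k) • z + (w * s) • star y) := by
  simp [rotL]

theorem rotL_sh (k s : ℝ) (X : J) : rotL (k ^ 2 + s ^ 2) k s (sh X) = sh (rotL 1 k s X) := by
  obtain ⟨a, b, c, x, y, z, rfl⟩ := exists_mk X
  have e1 : ⟪star (y * z), (1 : O)⟫ = ⟪y, star z⟫ := by
    rw [CA.inner_star_left, CA.star_one', CA.braid_r, one_mul]
  have e2 : ⟪z, star y⟫ = ⟪y, star z⟫ := by rw [← CA.inner_star_left, real_inner_comm]
  have e3 : y * z = (2 * ⟪y, star z⟫) • (1 : O) - star (y * z) := by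
    rw [← e1, ← CA.star_def, star_star]
  have e4 : star x = (2 * ⟪x, 1⟫) • (1 : O) - x := CA.star_def x
  rw [sh_mk, rotL_mk, rotL_mk, sh_mk, mk_inj]
  refine ⟨?_, ?_, ?_, ?_, ?_, ?_⟩
  · simp only [inner_add_left, inner_add_right, real_inner_smul_left, real_inner_smul_right, CA.one_one,
      real_inner_comm x 1]
    ring
  · simp only [inner_sub_left, inner_sub_right, real_inner_smul_left, real_inner_smul_right, e1,
      CA.inner_star, real_inner_comm y (star z)]
    ring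
  · simp only [inner_sub_left, inner_add_left, inner_add_right, real_inner_smul_left,
      real_inner_smul_right, e1, CA.inner_star, real_inner_comm z (star y), e2]
    ring
  · simp only [inner_sub_left, real_inner_smul_left, e1, mul_add, sub_mul, smul_mul_assoc, mul_smul_comm,
      star_sub, star_add, star_smul, star_trivial, CA.mul_star_self', CA.star_mul_self', CA.star_one',
      ← star_mul, star_star]
    linear_combination (norm := module) s ^ 2 • e3
  · simp only [mul_add, add_mul, smul_mul_assoc, mul_smul_comm, star_sub, star_add, star_smul,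
      star_trivial, mul_one, star_star, star_mul, e4, sub_mul, one_mul, CA.star_one']
    module
  · simp only [mul_sub, add_mul, smul_mul_assoc, mul_smul_comm, star_sub, star_add, star_smul,
      star_trivial, mul_one, star_star, star_mul, e4, one_mul, CA.star_one']
    module

/-- A real rotation of the last two coordinates. -/
def rot (k s : ℝ) (h : k ^ 2 + s ^ 2 = 1) : J ≃ₗᵢ[ℝ] J := mkAut (rotL 1 k s)
  (fun X => by rw [← rotL_sh, h]) fun X => by
    obtain ⟨a, b, c, x, y, z, rfl⟩ := exists_mk X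
    rw [rotL_mk, tr_mk, tr_mk]
    linear_combination (b + c) * h

theorem rot_mk (k s : ℝ) (h : k ^ 2 + s ^ 2 = 1) (a b c : ℝ) (x y z : O) : rot k s h (mk a b c x y z) =
    mk a (k ^ 2 * b + 2 * k * s * ⟪x, 1⟫ + s ^ 2 * c) (s ^ 2 * b - 2 * k * s * ⟪x, 1⟫ + k ^ 2 * c)
      ((k * s * (c - b) - 2 * s ^ 2 * ⟪x, 1⟫) • (1 : O) + x) (k • y - s • star z) (k • z + s • star y) := by
  rw [rot, mkAut_apply, rotL_mk, h]
  simp only [one_pow, one_mul, one_smul]

theorem isAut_rot (k s : ℝ) (h : k ^ 2 + s ^ 2 = 1) : IsAut (rot k s h) := isAut_mkAut _ _ _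

theorem aut_kill {X : J} (hX : X ∈ CaP) : ∃ A, IsAut A ∧ d0 (A X) = d0 X ∧ d2 (A X) = 0 := by
  obtain ⟨a, b, c, x, y, z, rfl⟩ := exists_mk X
  have hx : b * c = ⟪x, x⟫ := (mk_mem.1 hX).1.1
  by_cases hb : b = 0
  · have x0 : x = 0 := inner_self_eq_zero.1 (by rw [← hx, hb, zero_mul] : ⟪x, x⟫ = 0)
    refine ⟨rot 0 1 (by norm_num), isAut_rot _ _ _, ?_, ?_⟩ <;> simp [rot_mk, hb]
  obtain ⟨u, hu, hr⟩ : ∃ u : O, ⟪u, u⟫ = 1 ∧ ⟪u * x, 1⟫ = ‖x‖ := by
    by_cases x0 : x = 0
    · exact ⟨1, CA.one_one, by simp [x0]⟩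
    have hn : ‖x‖ ≠ 0 := norm_ne_zero_iff.2 x0
    refine ⟨‖x‖⁻¹ • star x, ?_, ?_⟩
    · rw [real_inner_smul_left, real_inner_smul_right, CA.inner_star, real_inner_self_eq_norm_sq]
      field_simp
    · rw [smul_mul_assoc, CA.star_mul_self', real_inner_smul_left, real_inner_smul_left, CA.one_one,
        real_inner_self_eq_norm_sq]
      field_simp
  have hp : 0 < b ^ 2 + ‖x‖ ^ 2 := by positivity
  have hs : √(b ^ 2 + ‖x‖ ^ 2) ^ 2 = b ^ 2 + ‖x‖ ^ 2 := Real.sq_sqrt hp.le
  have hs0 : √(b ^ 2 + ‖x‖ ^ 2) ≠ 0 := (Real.sqrt_pos.2 hp).ne'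
  rw [real_inner_self_eq_norm_sq] at hx
  refine ⟨(mf u hu).trans (rot (b / √(b ^ 2 + ‖x‖ ^ 2)) (‖x‖ / √(b ^ 2 + ‖x‖ ^ 2)) (by
    rw [div_pow, div_pow, hs]
    field_simp)), (isAut_mf u hu).trans (isAut_rot _ _ _), ?_, ?_⟩
  · simp [mf_mk, rot_mk]
  · rw [LinearIsometryEquiv.trans_apply, mf_mk, rot_mk, d2_mk, hr]
    field_simp
    linear_combination b * hx

/-- The automorphisms act transitively. -/
theorem exists_aut {p : J} (hp : p ∈ CaP) : ∃ A, IsAut A ∧ A e0 = p := by
  obtain ⟨A, hA, -, h1⟩ := aut_kill hp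
  have hC := (hA.trans isAut_cyc).trans isAut_cyc
  have h2 : d0 (((A.trans cyc).trans cyc) p) = 0 := by
    obtain ⟨a, b, c, x, y, z, e⟩ := exists_mk (A p)
    rw [e, d2_mk] at h1
    rw [LinearIsometryEquiv.trans_apply, LinearIsometryEquiv.trans_apply, e, cyc_mk, cyc_mk, d0_mk, h1]
  obtain ⟨B, hB, h3, h4⟩ := aut_kill (hC.mem hp)
  have h5 := hB.mem (hC.mem hp)
  obtain ⟨a, b, c, x, y, z, e⟩ := exists_mk (B (((A.trans cyc).trans cyc) p))
  rw [e] at h5
  rw [e, d0_mk, h2] at h3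
  rw [e, d2_mk] at h4
  subst h3 h4
  obtain ⟨⟨k1, k2, k3, -⟩, k4⟩ := mk_mem.1 h5
  have x0 : x = 0 := inner_self_eq_zero.1 (by rw [← k1, mul_zero] : ⟪x, x⟫ = 0)
  have y0 : y = 0 := inner_self_eq_zero.1 (by rw [← k2, mul_zero] : ⟪y, y⟫ = 0)
  have z0 : z = 0 := inner_self_eq_zero.1 (by rw [← k3, zero_mul] : ⟪z, z⟫ = 0)
  have b1 : b = 1 := by linarith
  refine ⟨((((A.trans cyc).trans cyc).trans B).trans cyc).symm, ((hC.trans hB).trans isAut_cyc).symm, ?_⟩
  rw [LinearIsometryEquiv.symm_apply_eq, LinearIsometryEquiv.trans_apply, LinearIsometryEquiv.trans_apply,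
    e, cyc_mk, x0, y0, z0, b1, e0]

/-- The tangent projector. -/
def Pj (p : J) : J →L[ℝ] J :=
  ContinuousLinearMap.id ℝ J - (innerSL ℝ p).smulRight p - (cr p).comp (cr p)

theorem Pj_apply (p u : J) : Pj p u = u - ⟪p, u⟫ • p - cr p (cr p u) := rfl

theorem contDiff_Pj {n : WithTop ℕ∞} : ContDiff ℝ n Pj :=
  (contDiff_const.sub ((innerSL ℝ (E := J)).contDiff.smulRight contDiff_id)).sub
    (cr.contDiff.clm_comp cr.contDiff)

theorem IsAut.Pj {A : J ≃ₗᵢ[ℝ] J} (hA : IsAut A) (p u : J) : Pj (A p) (A u) = A (Pj p u) := by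
  simp only [Pj_apply, map_sub, map_smul, hA.cr, A.inner_map_map]

theorem cr_e0 (a b c : ℝ) (x y z : O) : cr e0 (mk a b c x y z) = mk 0 c b (-x) 0 0 := by
  simp [e0, cr_mk]

theorem Pj_e0 (a b c : ℝ) (x y z : O) : Pj e0 (mk a b c x y z) = mk 0 0 0 0 y z := by
  rw [Pj_apply, cr_e0, cr_e0, inner_e0, e0, mk_smul, mk_sub, mk_sub]
  simp

theorem Pj_e0_eq {u : J} (h : Pj e0 u = u) : ∃ y z, u = mk 0 0 0 0 y z := by
  obtain ⟨a, b, c, x, y, z, rfl⟩ := exists_mk u
  exact ⟨y, z, by rw [← h, Pj_e0]⟩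

theorem Pj_symm (p u w : J) : ⟪Pj p u, w⟫ = ⟪u, Pj p w⟫ := by
  simp only [Pj_apply, inner_sub_left, inner_sub_right, real_inner_smul_left, real_inner_smul_right,
    inner_cr, real_inner_comm p u]
  ring

section
variable {p : J} (hp : p ∈ CaP)
include hp

theorem Pj_idem (u : J) : Pj p (Pj p u) = Pj p u := by
  obtain ⟨A, hA, rfl⟩ := exists_aut hp
  obtain ⟨u, rfl⟩ := A.surjective u
  obtain ⟨a, b, c, x, y, z, rfl⟩ := exists_mk u
  rw [hA.Pj, hA.Pj, Pj_e0, Pj_e0]

theorem Pj_self : Pj p p = 0 := by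
  rw [Pj_apply, inner_self_mem hp, cr_self, (mem_CaP.1 hp).1]
  simp

theorem Pj_one : Pj p one = 0 := by
  obtain ⟨A, hA, rfl⟩ := exists_aut hp
  rw [← hA.one, hA.Pj, one, Pj_e0, mk_zero, map_zero]

theorem Pj_eq_iff {u : J} : Pj p u = u ↔ cr p u = 0 ∧ ⟪p, u⟫ = 0 := by
  refine ⟨fun h => ?_, fun h => by rw [Pj_apply, h.1, h.2]; simp⟩
  obtain ⟨A, hA, rfl⟩ := exists_aut hp
  obtain ⟨u, rfl⟩ := A.surjective u
  rw [hA.Pj] at h
  obtain ⟨y, z, rfl⟩ := Pj_e0_eq (A.injective h)
  rw [← hA.cr, cr_e0, A.inner_map_map, inner_e0]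
  simp [mk_zero]

theorem tr_Pj (u : J) : tr (Pj p u) = 0 := by
  rw [← inner_one, ← Pj_symm, Pj_one hp, inner_zero_left]

theorem inner_nonneg {y : J} (hy : y ∈ CaP) : 0 ≤ ⟪p, y⟫ := by
  obtain ⟨A, hA, rfl⟩ := exists_aut hp
  obtain ⟨y, rfl⟩ := A.surjective y
  obtain ⟨a, b, c, x, y, z, rfl⟩ := exists_mk y
  obtain ⟨⟨-, k2, k3, -⟩, k4⟩ := mk_mem.1 (hA.mem_iff.1 hy)
  rw [A.inner_map_map, inner_e0, d0_mk]
  nlinarith [real_inner_self_nonneg (x := y), real_inner_self_nonneg (x := z)]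

theorem inner_le_one {y : J} (hy : y ∈ CaP) : ⟪p, y⟫ ≤ 1 := by
  have := real_inner_le_norm p y
  rwa [norm_mem hp, norm_mem hy, mul_one] at this

theorem eq_of_inner_eq_one {y : J} (hy : y ∈ CaP) (h : ⟪p, y⟫ = 1) : y = p :=
  ((inner_eq_one_iff_of_norm_eq_one (norm_mem hp) (norm_mem hy)).1 h).symm

theorem inner_Pj_Pj {y : J} (hy : y ∈ CaP) : ⟪Pj p y, Pj p y⟫ = 2 * ⟪p, y⟫ * (1 - ⟪p, y⟫) := by
  obtain ⟨A, hA, rfl⟩ := exists_aut hp
  obtain ⟨y, rfl⟩ := A.surjective y
  obtain ⟨a, b, c, x, y, z, rfl⟩ := exists_mk y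
  obtain ⟨⟨-, k2, k3, -⟩, k4⟩ := mk_mem.1 (hA.mem_iff.1 hy)
  rw [hA.Pj, A.inner_map_map, A.inner_map_map, inner_e0, d0_mk, Pj_e0, inner_mk, ← k2, ← k3]
  simp only [mul_zero, inner_zero_left]
  linear_combination 2 * a * k4

end

/-- The affine chart centred at `p`. -/
def kap (p u : J) : J := (1 + ⟪u, u⟫ / 2)⁻¹ • (p + u - cr p (sh u))

theorem IsAut.kap {A : J ≃ₗᵢ[ℝ] J} (hA : IsAut A) (p u : J) : kap (A p) (A u) = A (kap p u) := by
  simp only [OM.kap, map_sub, map_add, map_smul, hA.cr, hA.sh, A.inner_map_map]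

theorem kap_pos (u : J) : 0 < 1 + ⟪u, u⟫ / 2 := by
  have := real_inner_self_nonneg (x := u)
  linarith

theorem contDiff_kap {n : WithTop ℕ∞} : ContDiff ℝ n fun q : J × J => kap q.1 q.2 :=
  ((contDiff_const.add ((contDiff_snd.inner ℝ contDiff_snd).div_const 2)).inv
    fun q => (kap_pos q.2).ne').smul ((contDiff_fst.add contDiff_snd).sub
      ((cr.contDiff.comp contDiff_fst).clm_apply (contDiff_sh.comp contDiff_snd)))

theorem contDiff_kap' {X : Type} [NormedAddCommGroup X] [NormedSpace ℝ X] {n : WithTop ℕ∞} {f g : X → J}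
    (hf : ContDiff ℝ n f) (hg : ContDiff ℝ n g) : ContDiff ℝ n fun t => kap (f t) (g t) :=
  ContDiff.comp (g := fun q : J × J => kap q.1 q.2) (f := fun t => (f t, g t)) contDiff_kap (hf.prodMk hg)

theorem kap_e0 (y z : O) : kap e0 (mk 0 0 0 0 y z) =
    (1 + (⟪y, y⟫ + ⟪z, z⟫))⁻¹ • mk 1 ⟪z, z⟫ ⟪y, y⟫ (star (y * z)) y z := by
  rw [kap, sh_mk, cr_e0, e0, mk_add, mk_sub, inner_mk]
  congr 1
  · simp only [mul_zero, inner_zero_left]
    ring
  · simp

theorem ver_sh (w : ℝ) (y z : O) : sh (mk (w ^ 2) ⟪z, z⟫ ⟪y, y⟫ (star (y * z)) (w • y) (w • z)) = 0 := by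
  rw [sh_mk, ← mk_zero, mk_inj]
  simp only [CA.inner_star, CA.nm, real_inner_smul_left, real_inner_smul_right, smul_mul_assoc,
    mul_smul_comm, star_smul, star_trivial, star_mul, star_star]
  refine ⟨by ring, by ring, by ring, by module, ?_, ?_⟩
  · rw [CA.inv_r]
    module
  · rw [CA.inv_l]
    module

section
variable {p u : J} (hp : p ∈ CaP)
include hp

theorem kap_mem (hu : Pj p u = u) : kap p u ∈ CaP := by
  obtain ⟨A, hA, rfl⟩ := exists_aut hp
  obtain ⟨u, rfl⟩ := A.surjective u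
  rw [hA.Pj] at hu
  obtain ⟨y, z, rfl⟩ := Pj_e0_eq (A.injective hu)
  have h := ver_sh 1 y z
  rw [one_pow, one_smul, one_smul] at h
  have h2 : 0 < 1 + (⟪y, y⟫ + ⟪z, z⟫) := by
    have := real_inner_self_nonneg (x := y)
    have := real_inner_self_nonneg (x := z)
    linarith
  rw [hA.kap, hA.mem_iff, kap_e0, mem_CaP, sh_smul, h, smul_zero, map_smul, tr_mk, smul_eq_mul]
  refine ⟨rfl, ?_⟩
  field_simp
  ring

theorem inner_kap (hu : Pj p u = u) : ⟪p, kap p u⟫ = (1 + ⟪u, u⟫ / 2)⁻¹ := by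
  rw [kap, real_inner_smul_right, inner_sub_right, inner_add_right, inner_self_mem hp,
    ((Pj_eq_iff hp).1 hu).2, ← inner_cr, cr_self, (mem_CaP.1 hp).1]
  simp

theorem Pj_cr (w : J) : Pj p (cr p w) = 0 := by
  obtain ⟨A, hA, rfl⟩ := exists_aut hp
  obtain ⟨w, rfl⟩ := A.surjective w
  obtain ⟨a, b, c, x, y, z, rfl⟩ := exists_mk w
  rw [← hA.cr, hA.Pj, cr_e0, Pj_e0, mk_zero, map_zero]

theorem Pj_kap (hu : Pj p u = u) : Pj p (kap p u) = (1 + ⟪u, u⟫ / 2)⁻¹ • u := by
  rw [kap, map_smul, map_sub, map_add, Pj_self hp, Pj_cr hp, hu, zero_add, sub_zero]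

theorem kap_inv (hu : Pj p u = u) : ⟪p, kap p u⟫⁻¹ • Pj p (kap p u) = u := by
  rw [inner_kap hp hu, Pj_kap hp hu, inv_inv, smul_smul, mul_inv_cancel₀ (kap_pos u).ne', one_smul]

theorem kap_eq {y : J} (hy : y ∈ CaP) (h : ⟪p, y⟫ ≠ 0) : kap p (⟪p, y⟫⁻¹ • Pj p y) = y := by
  obtain ⟨A, hA, rfl⟩ := exists_aut hp
  obtain ⟨y, rfl⟩ := A.surjective y
  obtain ⟨a, b, c, x, y, z, rfl⟩ := exists_mk y
  obtain ⟨⟨-, k2, k3, k5, -⟩, k4⟩ := mk_mem.1 (hA.mem_iff.1 hy)
  rw [A.inner_map_map, inner_e0, d0_mk] at h ⊢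
  rw [hA.Pj, Pj_e0, ← map_smul, hA.kap, mk_smul, mul_zero, smul_zero, kap_e0, mk_smul]
  simp only [real_inner_smul_left, real_inner_smul_right, ← k2, ← k3, smul_mul_assoc, mul_smul_comm,
    star_smul, star_trivial, k5, smul_smul]
  have e : (1 + (a⁻¹ * (a⁻¹ * (c * a)) + a⁻¹ * (a⁻¹ * (a * b))))⁻¹ = a := by
    rw [inv_eq_iff_eq_inv]
    field_simp
    linear_combination k4
  rw [e]
  congr 2
  · ring
  · field_simp
  · field_simp
  · rw [show a * (a⁻¹ * a⁻¹ * a) = 1 by field_simp, one_smul]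
  · rw [mul_inv_cancel₀ h, one_smul]
  · rw [mul_inv_cancel₀ h, one_smul]

theorem tan_iff : Tan p u ↔ Pj p u = u := by
  constructor
  · rintro ⟨c, hc, hm, rfl, rfl⟩
    have hd : HasDerivAt c (deriv c 0) 0 := (hc.differentiable (by simp) 0).hasDerivAt
    have h1 := (hasFDerivAt_sh (c 0)).comp_hasDerivAt 0 hd
    have h2 : sh ∘ c = fun _ => 0 := funext fun t => (mem_CaP.1 (hm t)).1
    rw [h2] at h1
    have h3 := hd.inner ℝ hd
    have h4 : (fun t => ⟪c t, c t⟫) = fun _ => 1 := funext fun t => inner_self_mem (hm t)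
    rw [h4] at h3
    have h5 := h3.unique (hasDerivAt_const _ _)
    rw [real_inner_comm (c 0)] at h5
    exact (Pj_eq_iff hp).2 ⟨h1.unique (hasDerivAt_const _ _), by linarith⟩
  · intro hu
    refine ⟨fun t => kap p (t • u), contDiff_kap' contDiff_const (contDiff_id.smul contDiff_const),
      fun t => kap_mem hp (by rw [map_smul, hu]), by simp [kap, sh], ?_⟩
    have e : (fun t : ℝ => kap p (t • u)) =
        fun t : ℝ => (1 + t ^ 2 * (⟪u, u⟫ / 2))⁻¹ • (p + t • u - t ^ 2 • cr p (sh u)) := funext fun t => by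
      rw [kap, sh_smul, map_smul, real_inner_smul_left, real_inner_smul_right]
      congr 2
      ring
    have h0 : HasDerivAt (fun t : ℝ => t ^ 2) 0 0 := by simpa using hasDerivAt_pow 2 (0 : ℝ)
    have h1 := (((h0.mul_const (⟪u, u⟫ / 2)).const_add 1).inv (by simp)).smul
      ((((hasDerivAt_id (0 : ℝ)).smul_const u).const_add p).sub (h0.smul_const (cr p (sh u))))
    rw [e]
    exact h1.deriv.trans (by simp)

end

end Pool.Agent.Work.MP_8c604c_gt.OM
end
end

-- merged part: Pool.Agent.Work.MP_8c604c_gt.OM.Ret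
section
/-!
The retraction onto the Cayley plane (projector of the top eigenvalue) and the model with three charts.
-/

set_option maxSynthPendingDepth 3
set_option maxHeartbeats 400000

open Set Filter Topology MeasureTheory
open scoped ContDiff RealInnerProductSpace

noncomputable section
namespace Pool.Agent.Work.MP_8c604c_gt.OM

/-- The characteristic polynomial. -/
def chp (z : J) (t : ℝ) : ℝ := t ^ 3 - tr z * t ^ 2 + tr (sh z) * t - nrm z

theorem nrm_sub (z : J) (t : ℝ) : nrm (z - t • one) = -chp z t := by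
  obtain ⟨a, b, c, x, y, z, rfl⟩ := exists_mk z
  simp only [chp, one, mk_smul, mk_sub, nrm_mk, sh_mk, tr_mk, smul_zero, sub_zero]
  ring

theorem tr_sh_sub (z : J) (t : ℝ) : tr (sh (z - t • one)) = 3 * t ^ 2 - 2 * tr z * t + tr (sh z) := by
  obtain ⟨a, b, c, x, y, z, rfl⟩ := exists_mk z
  simp only [one, mk_smul, mk_sub, sh_mk, tr_mk, smul_zero, sub_zero]
  ring

theorem contDiff_nrm {n : WithTop ℕ∞} : ContDiff ℝ n nrm := (contDiff_sh.inner ℝ contDiff_id).div_const 3

theorem contDiff_chp {n : WithTop ℕ∞} : ContDiff ℝ n fun p : J × ℝ => chp p.1 p.2 :=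
  (((contDiff_snd.pow 3).sub ((tr.contDiff.comp contDiff_fst).mul (contDiff_snd.pow 2))).add
    ((tr.contDiff.comp (contDiff_sh.comp contDiff_fst)).mul contDiff_snd)).sub
      (contDiff_nrm.comp contDiff_fst)

/-- The domain of the retraction. -/
def RU : Set J := {z | chp z (3 / 4) < 0 ∧ 0 < 27 / 16 - 3 / 2 * tr z + tr (sh z) ∧ 2 * tr z < 9 / 4}

theorem isOpen_RU : IsOpen RU := by
  have h1 : Continuous fun z => chp z (3 / 4) :=
    (contDiff_chp (n := 0)).continuous.comp (f := fun z : J => (z, (3 / 4 : ℝ))) (by fun_prop)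
  have h2 : Continuous fun z => tr (sh z) := tr.continuous.comp (contDiff_sh (n := 0)).continuous
  exact (isOpen_lt h1 continuous_const).inter ((isOpen_lt continuous_const
    ((continuous_const.sub (continuous_const.mul tr.continuous)).add h2)).inter
      (isOpen_lt (continuous_const.mul tr.continuous) continuous_const))

theorem chp_mem {p : J} (hp : p ∈ CaP) (t : ℝ) : chp p t = t ^ 3 - t ^ 2 := by
  simp [chp, nrm, (mem_CaP.1 hp).1, (mem_CaP.1 hp).2]

theorem CaP_sub_RU : CaP ⊆ RU := fun p hp => by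
  refine ⟨by rw [chp_mem hp]; norm_num, ?_, ?_⟩ <;> simp [(mem_CaP.1 hp).1, (mem_CaP.1 hp).2] <;> norm_num

theorem chp_pos {z : J} (hz : z ∈ RU) {s t : ℝ} (hs : 3 / 4 ≤ s) (ht : 3 / 4 ≤ t) :
    0 < s ^ 2 + s * t + t ^ 2 - tr z * (s + t) + tr (sh z) := by
  obtain ⟨-, h2, h3⟩ := hz
  nlinarith [mul_nonneg (sub_nonneg.2 hs) (sub_nonneg.2 ht), sq_nonneg (s - 3 / 4), sq_nonneg (t - 3 / 4),
    mul_nonneg (sub_nonneg.2 hs) (sub_nonneg.2 h3.le), mul_nonneg (sub_nonneg.2 ht) (sub_nonneg.2 h3.le)]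

theorem chp_uniq {z : J} (hz : z ∈ RU) {s t : ℝ} (hs : 3 / 4 ≤ s) (ht : 3 / 4 ≤ t) (h1 : chp z s = 0)
    (h2 : chp z t = 0) : s = t := by
  have h : (s - t) * (s ^ 2 + s * t + t ^ 2 - tr z * (s + t) + tr (sh z)) = 0 := by
    unfold chp at h1 h2
    linear_combination h1 - h2
  exact sub_eq_zero.1 ((mul_eq_zero.1 h).resolve_right (chp_pos hz hs ht).ne')

theorem chp_root {z : J} (hz : z ∈ RU) : ∃ t, 3 / 4 < t ∧ chp z t = 0 := by
  set D := 27 / 16 - 3 / 2 * tr z + tr (sh z) with hD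
  have hD0 : 0 < D := hz.2.1
  set s := -chp z (3 / 4) / D with hs
  have hs0 : 0 < s := div_pos (neg_pos.2 hz.1) hD0
  have e : chp z (3 / 4 + s) = s ^ 2 * (9 / 4 - tr z + s) := by
    have : s * D = -chp z (3 / 4) := div_mul_cancel₀ _ hD0.ne'
    unfold chp at this ⊢
    rw [hD] at this
    linear_combination this
  have h0 : 0 ≤ chp z (3 / 4 + s) := by
    rw [e]
    have h3 := hz.2.2
    have h4 : tr z < 9 / 4 := by
      by_contra h
      linarith [not_lt.1 h]
    exact mul_nonneg (sq_nonneg _) (by linarith)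
  have hc : Continuous (chp z) := by
    unfold chp
    fun_prop
  obtain ⟨t, ht, h⟩ := intermediate_value_Ioc (show (3 / 4 : ℝ) ≤ 3 / 4 + s by linarith) hc.continuousOn
    (show (0 : ℝ) ∈ Ioc _ _ from ⟨hz.1, h0⟩)
  exact ⟨t, ht.1, h⟩

open Classical in
/-- The top eigenvalue. -/
def lam (z : J) : ℝ := if h : z ∈ RU then (chp_root h).choose else 0

theorem lam_spec {z : J} (hz : z ∈ RU) : 3 / 4 < lam z ∧ chp z (lam z) = 0 := by
  rw [lam, dif_pos hz]
  exact (chp_root hz).choose_spec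

theorem lam_eq {z : J} (hz : z ∈ RU) {t : ℝ} (ht : 3 / 4 ≤ t) (h : chp z t = 0) : lam z = t :=
  chp_uniq hz (lam_spec hz).1.le ht (lam_spec hz).2 h

theorem lam_pos {z : J} (hz : z ∈ RU) : 0 < tr (sh (z - lam z • one)) := by
  have := chp_pos hz (lam_spec hz).1.le (lam_spec hz).1.le
  rw [tr_sh_sub]
  linarith

theorem contDiffAt_lam {z : J} (hz : z ∈ RU) : ContDiffAt ℝ ∞ lam z := by
  have hf : ContDiffAt ℝ ∞ (fun p : J × ℝ => chp p.1 p.2) (z, lam z) := contDiff_chp.contDiffAt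
  have hd : HasDerivAt (chp z) (tr (sh (z - lam z • one))) (lam z) := by
    have := ((((hasDerivAt_pow 3 (lam z)).sub ((hasDerivAt_pow 2 (lam z)).const_mul (tr z))).add
      ((hasDerivAt_id (lam z)).const_mul (tr (sh z)))).sub_const (nrm z))
    refine this.congr_deriv ?_
    rw [tr_sh_sub]
    simp
    ring
  have h1 := ((hf.differentiableAt (by simp)).hasFDerivAt.comp (lam z)
    (hasFDerivAt_prodMk_right z (lam z))).unique hd.hasFDerivAt
  have hi : (fderiv ℝ (fun p : J × ℝ => chp p.1 p.2) (z, lam z) ∘L .inr ℝ J ℝ).IsInvertible := by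
    rw [h1]
    refine ⟨ContinuousLinearEquiv.unitsEquivAut ℝ (Units.mk0 _ (lam_pos hz).ne'), ?_⟩
    ext
    simp
  have h2 := hf.contDiffAt_implicitFunction (by simp) hi
  refine h2.congr_of_eventuallyEq ?_
  have h3 := hf.eventually_apply_implicitFunction (by simp) hi
  have h4 : ∀ᶠ x in 𝓝 z, 3 / 4 < hf.implicitFunction (by simp) hi x :=
    continuousAt_const.eventually_lt h2.continuousAt (by
      rw [hf.implicitFunction_apply_self (by simp) hi]
      exact (lam_spec hz).1)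
  filter_upwards [h3, h4, isOpen_RU.mem_nhds hz] with x k1 k2 k3
  exact lam_eq k3 k2.le (k1.trans (lam_spec hz).2)

/-- The retraction. -/
def ret (z : J) : J := (tr (sh (z - lam z • one)))⁻¹ • sh (z - lam z • one)

theorem contDiffOn_ret : ContDiffOn ℝ ∞ ret RU := fun z hz => by
  have h : ContDiffAt ℝ ∞ (fun z => sh (z - lam z • one)) z :=
    contDiff_sh.contDiffAt.comp z (contDiffAt_id.sub ((contDiffAt_lam hz).smul contDiffAt_const))
  exact (((tr.contDiff.contDiffAt.comp z h).inv (lam_pos hz).ne').smul h).contDiffWithinAt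

theorem ret_mem {z : J} (hz : z ∈ RU) : ret z ∈ CaP := by
  rw [mem_CaP, ret, sh_smul, sh_sh, nrm_sub, (lam_spec hz).2, map_smul, smul_eq_mul,
    inv_mul_cancel₀ (lam_pos hz).ne']
  simp

theorem ret_fix {p : J} (hp : p ∈ CaP) : ret p = p := by
  have h1 : lam p = 1 := lam_eq (CaP_sub_RU hp) (by norm_num) (by rw [chp_mem hp]; norm_num)
  have h2 : sh (p - (1 : ℝ) • one) = p := by
    rw [sub_eq_add_neg, ← neg_smul, sh_add, sh_smul, map_smul, cr_comm, cr_one, sh_one,
      (mem_CaP.1 hp).1, (mem_CaP.1 hp).2]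
    module
  rw [ret, h1, h2, (mem_CaP.1 hp).2, inv_one, one_smul]

theorem fix_eq : {z | z ∈ RU ∧ ret z = z} = CaP :=
  Set.ext fun _ => ⟨fun h => h.2 ▸ ret_mem h.1, fun h => ⟨CaP_sub_RU h, ret_fix h⟩⟩

/-- Pairs of octonions with the Euclidean norm. -/
abbrev O2 : Type := WithLp 2 (O × O)

theorem finrank_O2 : Module.finrank ℝ O2 = 16 := by
  rw [(WithLp.linearEquiv 2 ℝ (O × O)).finrank_eq, Module.finrank_prod, finrank_O]

/-- Coordinates on pairs of octonions. -/
def co2 : O.RF 16 ≃ₗᵢ[ℝ] O2 := (stdOrthonormalBasis ℝ O2).repr.symm |> fun e =>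
  (LinearIsometryEquiv.piLpCongrLeft 2 ℝ ℝ (finCongr finrank_O2.symm)).trans e

/-- The tangent vector at `e0` with the given coordinates. -/
def tv0 : O.RF 16 →L[ℝ] J :=
  mkL.comp ((0 : O.RF 16 →L[ℝ] ℝ).prod ((0 : O.RF 16 →L[ℝ] ℝ).prod ((0 : O.RF 16 →L[ℝ] ℝ).prod
    ((0 : O.RF 16 →L[ℝ] O).prod ((WithLp.prodContinuousLinearEquiv 2 ℝ O O : O2 →L[ℝ] O × O).comp
      (co2 : O.RF 16 →L[ℝ] O2))))))

theorem tv0_apply (a : O.RF 16) : tv0 a = mk 0 0 0 0 (co2 a).fst (co2 a).snd := rfl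

/-- The coordinates of the tangent part. -/
def tc0 : J →L[ℝ] O.RF 16 :=
  (co2.symm : O2 →L[ℝ] O.RF 16).comp
    (((WithLp.prodContinuousLinearEquiv 2 ℝ O O).symm : O × O →L[ℝ] O2).comp (x1.prod x2))

theorem tc0_apply (z : J) : tc0 z = co2.symm (WithLp.toLp 2 (x1 z, x2 z)) := rfl

theorem tc0_tv0 (a : O.RF 16) : tc0 (tv0 a) = a := by
  rw [tc0_apply, tv0_apply, x1_mk, x2_mk, LinearIsometryEquiv.symm_apply_eq]
  rfl

theorem tv0_tc0 (z : J) : tv0 (tc0 z) = Pj e0 z := by
  obtain ⟨a, b, c, x, y, z, rfl⟩ := exists_mk z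
  rw [tv0_apply, tc0_apply, LinearIsometryEquiv.apply_symm_apply, Pj_e0]
  rfl

theorem Pj_tv0 (a : O.RF 16) : Pj e0 (tv0 a) = tv0 a := by rw [tv0_apply, Pj_e0]

theorem tc0_Pj (z : J) : tc0 (Pj e0 z) = tc0 z := by rw [← tv0_tc0, tc0_tv0]

/-- The three permutations. -/
def pm : Fin 3 → J ≃ₗᵢ[ℝ] J := ![LinearIsometryEquiv.refl ℝ J, cyc, cyc.trans cyc]

theorem isAut_pm (i : Fin 3) : IsAut (pm i) := by
  fin_cases i
  exacts [IsAut.refl, isAut_cyc, isAut_cyc.trans isAut_cyc]

/-- The chart attached to an automorphism. -/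
def chi (A : J ≃ₗᵢ[ℝ] J) (a : O.RF 16) : J := A.symm (kap e0 (tv0 a))

/-- Its inverse. -/
def rho (A : J ≃ₗᵢ[ℝ] J) (z : J) : O.RF 16 := (d0 (A z))⁻¹ • tc0 (A z)

theorem contDiff_chi (A : J ≃ₗᵢ[ℝ] J) {n : WithTop ℕ∞} : ContDiff ℝ n (chi A) :=
  A.symm.contDiff.comp (contDiff_kap' contDiff_const tv0.contDiff)

theorem contDiffOn_rho (A : J ≃ₗᵢ[ℝ] J) {n : WithTop ℕ∞} : ContDiffOn ℝ n (rho A) {z | d0 (A z) ≠ 0} :=
  ((d0.contDiff.comp A.contDiff).contDiffOn.inv fun _ h => h).smul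
    (tc0.contDiff.comp A.contDiff).contDiffOn

theorem chi_mem {A : J ≃ₗᵢ[ℝ] J} (hA : IsAut A) (a : O.RF 16) : chi A a ∈ CaP :=
  hA.symm.mem (kap_mem e0_mem (Pj_tv0 a))

theorem d0_chi (A : J ≃ₗᵢ[ℝ] J) (a : O.RF 16) : d0 (A (chi A a)) = (1 + ⟪tv0 a, tv0 a⟫ / 2)⁻¹ := by
  rw [chi, A.apply_symm_apply, ← inner_e0, inner_kap e0_mem (Pj_tv0 a)]

theorem d0_chi_ne (A : J ≃ₗᵢ[ℝ] J) (a : O.RF 16) : d0 (A (chi A a)) ≠ 0 := by
  rw [d0_chi]
  exact inv_ne_zero (kap_pos _).ne'

theorem rho_chi (A : J ≃ₗᵢ[ℝ] J) (a : O.RF 16) : rho A (chi A a) = a := by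
  rw [rho, chi, A.apply_symm_apply, ← tc0_Pj, ← map_smul, ← inner_e0, kap_inv e0_mem (Pj_tv0 a), tc0_tv0]

theorem chi_rho {A : J ≃ₗᵢ[ℝ] J} (hA : IsAut A) {z : J} (hz : z ∈ CaP) (h : d0 (A z) ≠ 0) :
    chi A (rho A z) = z := by
  rw [← inner_e0] at h
  rw [chi, rho, map_smul, tv0_tc0, ← inner_e0, kap_eq e0_mem (hA.mem hz) h, A.symm_apply_apply]

theorem ret_cover {z : J} (hz : z ∈ CaP) : ∃ i, d0 (pm i z) ≠ 0 := by
  obtain ⟨a, b, c, x, y, z, rfl⟩ := exists_mk z
  have h := (mk_mem.1 hz).2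
  by_contra hc
  push Not at hc
  have h0 : d0 (mk a b c x y z) = 0 := hc 0
  have h1 : d0 (cyc (mk a b c x y z)) = 0 := hc 1
  have h2 : d0 (cyc (cyc (mk a b c x y z))) = 0 := hc 2
  simp only [cyc_mk, d0_mk] at h0 h1 h2
  rw [h0, h1, h2] at h
  norm_num at h

theorem cyc_symm_mk (a b c : ℝ) (x y z : O) : cyc.symm (mk a b c x y z) = mk c a b z x y := by
  rw [LinearIsometryEquiv.symm_apply_eq, cyc_mk]

theorem ret_null (f : O.RF 16 →L[ℝ] O) (h : ∃ a, f a ≠ 0) : ∀ᵐ a, f a ≠ 0 := by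
  have := Measure.addHaar_submodule (volume : Measure (O.RF 16)) (LinearMap.ker (f : O.RF 16 →ₗ[ℝ] O))
    (fun e => by
      obtain ⟨a, ha⟩ := h
      exact ha (LinearMap.mem_ker.1 (e ▸ Submodule.mem_top : a ∈ LinearMap.ker (f : O.RF 16 →ₗ[ℝ] O))))
  rw [ae_iff]
  simp only [not_not]
  exact this

theorem one_ne : (1 : O) ≠ 0 := fun h => by
  have := CA.one_one (V := O)
  rw [h] at this
  simp at this

theorem chi_null (i : Fin 3) : ∀ᵐ a, d0 (chi (pm i) a) ≠ 0 := by
  have hp : ∀ y z : O, (1 + (⟪y, y⟫ + ⟪z, z⟫))⁻¹ ≠ 0 := fun y z => by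
    have := real_inner_self_nonneg (x := y)
    have := real_inner_self_nonneg (x := z)
    exact inv_ne_zero (by linarith)
  fin_cases i
  · exact Eventually.of_forall fun a => d0_chi_ne (pm 0) a
  · filter_upwards [ret_null (x1.comp tv0) ⟨co2.symm (WithLp.toLp 2 (1, 0)), by
      simpa [tv0_apply] using one_ne⟩] with a ha
    change d0 (cyc.symm (kap e0 (tv0 a))) ≠ 0
    rw [tv0_apply, kap_e0, map_smul, map_smul, cyc_symm_mk, d0_mk]
    exact mul_ne_zero (hp _ _) fun e => ha (inner_self_eq_zero.1 e)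
  · filter_upwards [ret_null (x2.comp tv0) ⟨co2.symm (WithLp.toLp 2 (0, 1)), by
      simpa [tv0_apply] using one_ne⟩] with a ha
    change d0 (cyc.symm (cyc.symm (kap e0 (tv0 a)))) ≠ 0
    rw [tv0_apply, kap_e0, map_smul, map_smul, map_smul, cyc_symm_mk, cyc_symm_mk, d0_mk]
    exact mul_ne_zero (hp _ _) fun e => ha (inner_self_eq_zero.1 e)

/-- The Cayley plane as the fixed set of a retraction. -/
def model : O.Model J 16 where
  U := RU
  r := ret
  isOpen := isOpen_RU
  smooth := contDiffOn_ret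
  maps _ hz := CaP_sub_RU (ret_mem hz)
  idem _ hz := ret_fix (ret_mem hz)
  compact := fix_eq ▸ isCompact_CaP
  N := 2
  χ i := chi (pm i)
  ρ i := rho (pm i)
  W i := RU ∩ {z | d0 (pm i z) ≠ 0}
  χ_smooth i := contDiff_chi _
  W_open i := isOpen_RU.inter (isOpen_ne_fun (d0.continuous.comp (pm i).continuous) continuous_const)
  W_sub _ := inter_subset_left
  ρ_smooth i := (contDiffOn_rho _).mono inter_subset_right
  χ_mem i a := ⟨CaP_sub_RU (chi_mem (isAut_pm i) a), d0_chi_ne _ a⟩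
  χ_fix i a := ret_fix (chi_mem (isAut_pm i) a)
  ρχ i a := rho_chi _ a
  χρ i _ hz h := chi_rho (isAut_pm i) (h ▸ ret_mem hz.1) hz.2
  cover z hz h := (ret_cover (h ▸ ret_mem hz : z ∈ CaP)).imp fun _ hi => ⟨hz, hi⟩
  null i := (chi_null i).mono fun a ha => ⟨CaP_sub_RU (chi_mem (isAut_pm i) a), ha⟩
  two := by norm_num

theorem model_M : model.M = CaP := fix_eq

end Pool.Agent.Work.MP_8c604c_gt.OM
end
end

-- merged part: Pool.Agent.Work.MP_8c604c_gt.OM.Hur
section
/-!
Hurwitz: a composition algebra of dimension 8 on a Euclidean space is the algebra of octonions.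
-/

set_option maxSynthPendingDepth 3
set_option maxHeartbeats 400000

open scoped Quaternion RealInnerProductSpace

noncomputable section
namespace Pool.Agent.Work.MP_8c604c_gt.OM

variable {V : Type} [NormedAddCommGroup V] [InnerProductSpace ℝ V] [FiniteDimensional ℝ V]

theorem hur_next {F : Type} [AddCommGroup F] [Module ℝ F] [FiniteDimensional ℝ F] (f : F →ₗ[ℝ] V)
    (h : Module.finrank ℝ F < Module.finrank ℝ V) : ∃ l : V, ⟪l, l⟫ = 1 ∧ ∀ a, ⟪f a, l⟫ = 0 := by
  have h1 : (LinearMap.range f)ᗮ ≠ ⊥ := fun e => by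
    have h2 := (LinearMap.range f).finrank_add_finrank_orthogonal
    have h3 := f.finrank_range_le
    rw [e, finrank_bot] at h2
    omega
  obtain ⟨l, hl, l0⟩ := Submodule.exists_mem_ne_zero_of_ne_bot h1
  have hn : ‖l‖ ≠ 0 := norm_ne_zero_iff.2 l0
  refine ⟨‖l‖⁻¹ • l, ?_, fun a => ?_⟩
  · rw [real_inner_smul_left, real_inner_smul_right, real_inner_self_eq_norm_sq]
    field_simp
  · rw [real_inner_smul_right, (Submodule.mem_orthogonal _ _).1 hl _ ⟨a, rfl⟩, mul_zero]

variable [CA V]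

theorem hur_quat (h : 2 < Module.finrank ℝ V) : ∃ φ : ℍ →ₗ[ℝ] V, φ 1 = 1 ∧
    (∀ p q, φ (p * q) = φ p * φ q) ∧ ∀ p q, ⟪φ p, φ q⟫ = ⟪p, q⟫ := by
  obtain ⟨i, i1, hi⟩ := hur_next (LinearMap.toSpanSingleton ℝ V 1) (by rw [Module.finrank_self]; omega)
  obtain ⟨j, j1, hj⟩ := hur_next ((LinearMap.toSpanSingleton ℝ V 1).coprod (LinearMap.toSpanSingleton ℝ V i))
    (by simpa using h)
  have oi : ⟪(1 : V), i⟫ = 0 := by simpa using hi 1
  have oj : ⟪(1 : V), j⟫ = 0 := by simpa using hj (1, 0)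
  have ij : ⟪i, j⟫ = 0 := by simpa using hj (0, 1)
  have si : star i = -i := CA.star_of_im (by rw [real_inner_comm, oi])
  have sj : star j = -j := CA.star_of_im (by rw [real_inner_comm, oj])
  have ok : ⟪(1 : V), i * j⟫ = 0 := by
    rw [real_inner_comm, CA.braid_l, mul_one, si, inner_neg_right, real_inner_comm, ij, neg_zero]
  have ik : ⟪i, i * j⟫ = 0 := by
    have := CA.scale_l i 1 j
    rwa [mul_one, oj, mul_zero] at this
  have jk : ⟪j, i * j⟫ = 0 := by
    have := CA.scale_r 1 i j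
    rwa [one_mul, oi, zero_mul] at this
  have k1 : ⟪i * j, i * j⟫ = 1 := by rw [CA.nm, i1, j1, mul_one]
  have sq : ∀ x : V, ⟪(1 : V), x⟫ = 0 → ⟪x, x⟫ = 1 → x * x = -1 := fun x h0 h1 => by
    have := CA.star_mul_self' x
    rw [CA.star_of_im (by rw [real_inner_comm, h0]), h1, neg_mul, one_smul] at this
    exact neg_eq_iff_eq_neg.1 this
  have ji : j * i = -(i * j) := by
    have := CA.lin_l i j 1
    rw [mul_one, mul_one, si, sj, ij, neg_mul, neg_mul] at this
    linear_combination (norm := module) -this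
  have e1 : i * (i * j) = -j := by
    have := CA.inv_l i j
    rw [si, i1, neg_mul, one_smul] at this
    exact neg_eq_iff_eq_neg.1 this
  have e2 : i * j * j = -i := by
    have := CA.inv_r j i
    rw [sj, j1, mul_neg, one_smul] at this
    exact neg_eq_iff_eq_neg.1 this
  have e3 : i * j * i = j := by
    have := CA.inv_r i j
    rwa [si, i1, ji, mul_neg, neg_mul, neg_neg, one_smul] at this
  have e4 : j * (i * j) = i := by
    have := CA.inv_l j i
    rwa [sj, j1, ji, mul_neg, neg_mul, neg_neg, one_smul] at this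
  obtain ⟨φ, hφ⟩ : ∃ φ : ℍ →ₗ[ℝ] V, ∀ q, φ q = q.re • 1 + q.imI • i + q.imJ • j + q.imK • (i * j) :=
    ⟨⟨⟨fun q => q.re • 1 + q.imI • i + q.imJ • j + q.imK • (i * j), fun p q => by
      simp only [Quaternion.re_add, Quaternion.imI_add, Quaternion.imJ_add, Quaternion.imK_add]
      module⟩, fun t q => by
      simp only [Quaternion.re_smul, Quaternion.imI_smul, Quaternion.imJ_smul, Quaternion.imK_smul,
        RingHom.id_apply]
      module⟩, fun _ => rfl⟩
  refine ⟨φ, by simp [hφ], fun p q => ?_, fun p q => ?_⟩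
  · simp only [hφ, add_mul, mul_add, smul_mul_assoc, mul_smul_comm, one_mul, mul_one, sq i oi i1,
      sq j oj j1, sq _ ok k1, ji, e1, e2, e3, e4, Quaternion.re_mul, Quaternion.imI_mul,
      Quaternion.imJ_mul, Quaternion.imK_mul]
    module
  · simp only [hφ, inner_add_left, inner_add_right, real_inner_smul_left, real_inner_smul_right,
      CA.one_one, oi, oj, ok, ij, ik, jk, i1, j1, k1, real_inner_comm 1 i, real_inner_comm 1 j,
      real_inner_comm 1 (i * j), real_inner_comm i j, real_inner_comm i (i * j), real_inner_comm j (i * j),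
      Quaternion.inner_def, Quaternion.re_mul, Quaternion.re_star, Quaternion.imI_star,
      Quaternion.imJ_star, Quaternion.imK_star]
    ring

theorem hurwitz (h : 4 < Module.finrank ℝ V) : ∃ θ : O →ₗ[ℝ] V, θ 1 = 1 ∧
    (∀ x y, θ (x * y) = θ x * θ y) ∧ ∀ x y, ⟪θ x, θ y⟫ = ⟪x, y⟫ := by
  obtain ⟨φ, h1, hm, hi⟩ := hur_quat (V := V) (by omega)
  obtain ⟨l, l1, hl⟩ := hur_next φ (by rwa [Quaternion.finrank_eq_four])
  have hs : ∀ q, φ (star q) = star (φ q) := fun q => by
    rw [CA.star_def, ← h1, hi, ← map_smul, ← map_sub]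
    congr 1
    ext <;> simp [Quaternion.inner_def]
    ring
  have ho : ∀ p q, ⟪φ p * l, φ q⟫ = 0 := fun p q => by
    rw [CA.braid_l, ← hs, ← hm, real_inner_comm, hl]
  refine ⟨⟨⟨fun x => φ (q1 x) + φ (q2 x) * l, fun x y => ?_⟩, fun t x => ?_⟩, ?_, fun x y => ?_,
    fun x y => ?_⟩
  · simp only [q1_add, q2_add, map_add, add_mul]
    abel
  · simp only [q1_smul, q2_smul, map_smul, smul_mul_assoc, smul_add, RingHom.id_apply]
  · change φ 1 + φ 0 * l = 1
    rw [h1, map_zero, zero_mul, add_zero]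
  · change φ (q1 (omul x y)) + φ (q2 (omul x y)) * l =
      (φ (q1 x) + φ (q2 x) * l) * (φ (q1 y) + φ (q2 y) * l)
    rw [CA.double (A := LinearMap.range φ) ⟨1, h1⟩ (by rintro _ ⟨a, rfl⟩ _ ⟨b, rfl⟩; exact ⟨_, hm a b⟩)
      (by rintro _ ⟨a, rfl⟩; exact hl a) l1 ⟨_, rfl⟩ ⟨_, rfl⟩ ⟨_, rfl⟩ ⟨_, rfl⟩, q1_omul, q2_omul]
    simp only [map_sub, map_add, hm, hs]
  · change ⟪φ (q1 x) + φ (q2 x) * l, φ (q1 y) + φ (q2 y) * l⟫ = _
    rw [inner_add_left, inner_add_right, inner_add_right, ho, real_inner_comm (φ (q2 y) * l), ho, hi,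
      CA.scale_r, hi, l1, O_inner']
    ring

end Pool.Agent.Work.MP_8c604c_gt.OM
end
end
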