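import Mathlib

/-!
Statement layer of the hand-in for MP_8c604c_gt (Blaschke conjecture for the Cayley plane).
The Cayley plane is the set of Hermitian idempotents of trace one among the 3 by 3 matrices over the octonions.
The Riemannian notions are written for a subset `S` of a Euclidean space `V`; the hand-in uses `V = Mat`, `S = CaP`.
-/

set_option maxSynthPendingDepth 3

open scoped ContDiff Quaternion

noncomputable section
namespace Pool.Agent.Work.MP_8c604c_gt.OM.St

/-- The octonions: pairs of quaternions, with their Euclidean structure. -/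
abbrev O : Type := WithLp 2 (ℍ × ℍ)

/-- The Cayley-Dickson product `(a, b) (c, d) = (a c - d* b, d a + b c*)`. -/
def omul (x y : O) : O :=
  WithLp.toLp 2 (x.fst * y.fst - star y.snd * x.snd, y.snd * x.fst + x.snd * star y.fst)

/-- Conjugation `(a, b)* = (a*, -b)`. -/
def ostar (x : O) : O := WithLp.toLp 2 (star x.fst, -x.snd)

/-- The unit `(1, 0)`. -/
def oone : O := WithLp.toLp 2 (1, 0)

/-- 3 by 3 matrices of octonions, with their Euclidean structure (the trace form on Hermitian matrices). -/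
abbrev Mat : Type := PiLp 2 fun _ : Fin 3 × Fin 3 => O

/-- The Cayley plane: `X` Hermitian, `X X = X` and `tr X = 1`. -/
def CaP : Set Mat :=
  {X | (∀ i j, X (j, i) = ostar (X (i, j))) ∧
    (∀ i j, ∑ k, omul (X (i, k)) (X (k, j)) = X (i, j)) ∧ ∑ i, X (i, i) = oone}

/-- Families of real bilinear forms on `V`. -/
abbrev Met (V : Type) [NormedAddCommGroup V] [InnerProductSpace ℝ V] : Type :=
  V → V →L[ℝ] V →L[ℝ] ℝ

variable {V : Type} [NormedAddCommGroup V] [InnerProductSpace ℝ V] (S : Set V)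

/-- `u` is tangent to `S` at `p`: the velocity of a smooth curve in `S`. -/
def Tan (p u : V) : Prop :=
  ∃ c : ℝ → V, ContDiff ℝ ∞ c ∧ (∀ t, c t ∈ S) ∧ c 0 = p ∧ deriv c 0 = u

/-- `g` restricts to a smooth Riemannian metric on `S`. -/
structure IsMetric (g : Met V) : Prop where
  smooth : ∀ p ∈ S, ContDiffAt ℝ ∞ g p
  symm : ∀ p ∈ S, ∀ u w, g p u w = g p w u
  pos : ∀ p ∈ S, ∀ u, Tan S p u → u ≠ 0 → 0 < g p u u

/-- `c` is a unit speed geodesic: Euler-Lagrange equation of the energy, tested on tangent vectors. -/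
structure IsUnitGeodesic (g : Met V) (c : ℝ → V) : Prop where
  smooth : ContDiff ℝ ∞ c
  mem : ∀ t, c t ∈ S
  el : ∀ t η, Tan S (c t) η → HasDerivAt (fun s => g (c s) (deriv c s) η)
    (1 / 2 * fderiv ℝ g (c t) η (deriv c t) (deriv c t)) t
  unit : ∀ t, g (c t) (deriv c t) (deriv c t) = 1

/-- Length of `c` restricted to `[0, 1]`. -/
def len (g : Met V) (c : ℝ → V) : ℝ :=
  ∫ t in (0 : ℝ)..1, √(g (c t) (deriv c t) (deriv c t))

/-- `c` is a `C^1` path in `S` from `y` to `y'`. -/
structure Joins (c : ℝ → V) (y y' : V) : Prop where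
  smooth : ContDiff ℝ 1 c
  mem : ∀ s, c s ∈ S
  start : c 0 = y
  stop : c 1 = y'

/-- `Ψ` is smooth along `S` and `Ψ^* g = c * g_0`, `g_0` the metric induced on `S` by the Euclidean product. -/
def PullsBack (g : Met V) (Ψ : V → V) (c : ℝ) : Prop :=
  ∀ p ∈ S, ContDiffAt ℝ ∞ Ψ p ∧ ∀ u w, Tan S p u → Tan S p w →
    g (Ψ p) (fderiv ℝ Ψ p u) (fderiv ℝ Ψ p w) = c * inner ℝ u w

end Pool.Agent.Work.MP_8c604c_gt.OM.St
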